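import Mathlib

/-!
# Joining two blocks, given by lists of segments from bottom to top
-/

namespace Pool.Agent.Lib.MP_868dd5_lc

/-- The segment `z` is strictly between the segments `a` and `a + 1`. -/
def bt (g : ℕ → ℕ) (a z : ℕ) : Prop :=
  (g a < g z ∧ g z < g (a + 1)) ∨ (g (a + 1) < g z ∧ g z < g a)

/-- A block `[i, j]` with heights `g` (only the inner arcs, and the condition that the ends can be
joined to the outside). `up a` says that the segment `a + 1` is above the segment `a`. -/
structure VH (n : ℕ) (up : ℕ → Bool) (g : ℕ → ℕ) (i j : ℕ) : Prop where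
  inj : ∀ x y, i ≤ x → x ≤ j → i ≤ y → y ≤ j → g x = g y → x = y
  sgn : ∀ a, i ≤ a → a < j → (g a < g (a + 1) ↔ up a = true)
  nc : ∀ a c, i ≤ a → a < j → i ≤ c → c < j → a ≠ c → a % 2 = c % 2 →
    (bt g a c ↔ bt g a (c + 1))
  accL : 0 < i → ∀ a, i ≤ a → a < j → a % 2 ≠ i % 2 → ¬ bt g a i
  accR : j < n → ∀ a, i ≤ a → a < j → a % 2 = j % 2 → ¬ bt g a j

theorem VH.congr {n : ℕ} {up : ℕ → Bool} {g g' : ℕ → ℕ} {i j : ℕ} (V : VH n up g i j)
    (h : ∀ x y, i ≤ x → x ≤ j → i ≤ y → y ≤ j → (g' x < g' y ↔ g x < g y)) :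
    VH n up g' i j := by
  have hb : ∀ a z, i ≤ a → a < j → i ≤ z → z ≤ j → (bt g' a z ↔ bt g a z) := by
    intro a z h1 h2 h3 h4
    unfold bt
    rw [h a z (by omega) (by omega) (by omega) (by omega),
      h z (a + 1) (by omega) (by omega) (by omega) (by omega),
      h (a + 1) z (by omega) (by omega) (by omega) (by omega),
      h z a (by omega) (by omega) (by omega) (by omega)]
  refine ⟨?_, ?_, ?_, ?_, ?_⟩
  · intro x y h1 h2 h3 h4 h5
    refine V.inj x y h1 h2 h3 h4 ?_
    have a1 := h x y h1 h2 h3 h4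
    have a2 := h y x h3 h4 h1 h2
    omega
  · intro a h1 h2
    rw [h _ _ (by omega) (by omega) (by omega) (by omega)]
    exact V.sgn a h1 h2
  · intro a c h1 h2 h3 h4 h5 h6
    rw [hb _ _ h1 h2 h3 (by omega), hb _ _ h1 h2 (by omega) (by omega)]
    exact V.nc a c h1 h2 h3 h4 h5 h6
  · intro h0 a h1 h2 h3
    rw [hb _ _ h1 h2 le_rfl (by omega)]
    exact V.accL h0 a h1 h2 h3
  · intro h0 a h1 h2 h3
    rw [hb _ _ h1 h2 (by omega) le_rfl]
    exact V.accR h0 a h1 h2 h3

/-- Joining two blocks. -/
theorem VH.join {n : ℕ} {up : ℕ → Bool} {g : ℕ → ℕ} {i j k : ℕ} (hik : i ≤ k) (hkj : k < j)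
    (hjn : j ≤ n) (A : VH n up g i k) (B : VH n up g (k + 1) j)
    (hs : (∀ x y, i ≤ x → x ≤ k → k < y → y ≤ j → g x < g y) ∨
      (∀ x y, i ≤ x → x ≤ k → k < y → y ≤ j → g y < g x))
    (hu : up k = true ↔ g k < g (k + 1))
    (hA : 0 < i → i % 2 ≠ k % 2 → (g i < g k ↔ g k < g (k + 1)))
    (hB : j < n → k % 2 = j % 2 → (g (k + 1) < g j ↔ g k < g (k + 1))) :
    VH n up g i j := by
  have hs' : ∀ x y x' y', i ≤ x → x ≤ k → k < y → y ≤ j → i ≤ x' → x' ≤ k → k < y' → y' ≤ j →
      ((g x < g y ∧ g x' < g y') ∨ (g y < g x ∧ g y' < g x')) := by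
    intro x y x' y' h1 h2 h3 h4 h5 h6 h7 h8
    rcases hs with H | H
    · exact Or.inl ⟨H x y h1 h2 h3 h4, H x' y' h5 h6 h7 h8⟩
    · exact Or.inr ⟨H x y h1 h2 h3 h4, H x' y' h5 h6 h7 h8⟩
  have hs3 : ∀ x, i ≤ x → x ≤ k → ∀ y, k < y → y ≤ j → (g x < g y ↔ g k < g (k + 1)) ∧
      g x ≠ g y := by
    intro x h1 h2 y h3 h4
    have := hs' x y k (k + 1) h1 h2 h3 h4 hik le_rfl (by omega) (by omega)
    omega
  have hs0 := (hs3 k hik le_rfl (k + 1) (by omega) (by omega)).2
  refine ⟨?_, ?_, ?_, ?_, ?_⟩
  · intro x y h1 h2 h3 h4 h5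
    by_cases hx : x ≤ k
    · by_cases hy : y ≤ k
      · exact A.inj x y h1 hx h3 hy h5
      · exact absurd h5 (hs3 x h1 hx y (by omega) h4).2
    · by_cases hy : y ≤ k
      · exact absurd h5.symm (hs3 y h3 hy x (by omega) h2).2
      · exact B.inj x y (by omega) h2 (by omega) h4 h5
  · intro a h1 h2
    rcases lt_trichotomy a k with h3 | h3 | h3
    · exact A.sgn a h1 h3
    · subst h3; exact hu.symm
    · exact B.sgn a h3 h2
  · intro a c h1 h2 h3 h4 h5 h6
    rcases lt_trichotomy a k with ha | ha | ha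
    · rcases lt_trichotomy c k with hc | hc | hc
      · exact A.nc a c h1 ha h3 hc h5 h6
      · subst hc
        have e1 := A.accR (by omega) a h1 ha h6
        have e2 := hs3 a h1 ha.le (c + 1) (by omega) (by omega)
        have e3 := hs3 (a + 1) (by omega) (by omega) (c + 1) (by omega) (by omega)
        unfold bt at e1 ⊢
        omega
      · have e2 := hs3 a h1 ha.le c (by omega) (by omega)
        have e3 := hs3 (a + 1) (by omega) (by omega) c (by omega) (by omega)
        have e4 := hs3 a h1 ha.le (c + 1) (by omega) (by omega)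
        have e5 := hs3 (a + 1) (by omega) (by omega) (c + 1) (by omega) (by omega)
        unfold bt
        omega
    · subst ha
      rcases lt_or_gt_of_ne h5 with hc | hc
      · have e1 := B.accL (by omega) c hc h4 (by omega)
        have e2 := hs3 a hik le_rfl c (by omega) (by omega)
        have e3 := hs3 a hik le_rfl (c + 1) (by omega) (by omega)
        have e4 : g (a + 1) ≠ g c := fun e => by
          have := B.inj _ _ (by omega) (by omega) (by omega) (by omega) e; omega
        have e5 : g (a + 1) ≠ g (c + 1) := fun e => by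
          have := B.inj _ _ (by omega) (by omega) (by omega) (by omega) e; omega
        unfold bt at e1 ⊢
        omega
      · have e1 := A.accR (by omega) c h3 hc h6.symm
        have e2 := hs3 c h3 hc.le (a + 1) (by omega) (by omega)
        have e3 := hs3 (c + 1) (by omega) (by omega) (a + 1) (by omega) (by omega)
        have e4 : g a ≠ g c := fun e => by
          have := A.inj _ _ (by omega) (by omega) (by omega) (by omega) e; omega
        have e5 : g a ≠ g (c + 1) := fun e => by
          have := A.inj _ _ (by omega) (by omega) (by omega) (by omega) e; omega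
        unfold bt at e1 ⊢
        omega
    · rcases lt_trichotomy c k with hc | hc | hc
      · have e2 := hs3 c h3 hc.le a (by omega) (by omega)
        have e3 := hs3 (c + 1) (by omega) (by omega) a (by omega) (by omega)
        have e4 := hs3 c h3 hc.le (a + 1) (by omega) (by omega)
        have e5 := hs3 (c + 1) (by omega) (by omega) (a + 1) (by omega) (by omega)
        unfold bt
        omega
      · subst hc
        have e1 := B.accL (by omega) a ha h2 (by omega)
        have e2 := hs3 c hik le_rfl a (by omega) (by omega)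
        have e3 := hs3 c hik le_rfl (a + 1) (by omega) (by omega)
        unfold bt at e1 ⊢
        omega
      · exact B.nc a c ha h2 hc h4 h5 h6
  · intro h0 a h1 h2 h3
    rcases lt_trichotomy a k with ha | ha | ha
    · exact A.accL h0 a h1 ha h3
    · subst ha
      have e1 := hA h0 (by omega)
      have e2 := hs3 i le_rfl hik (a + 1) (by omega) (by omega)
      have e4 : g a ≠ g i := fun e => by
        have := A.inj _ _ (by omega) (by omega) (by omega) (by omega) e; omega
      unfold bt
      omega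
    · have e2 := hs3 i le_rfl hik a (by omega) (by omega)
      have e3 := hs3 i le_rfl hik (a + 1) (by omega) (by omega)
      unfold bt
      omega
  · intro h0 a h1 h2 h3
    rcases lt_trichotomy a k with ha | ha | ha
    · have e2 := hs3 a h1 ha.le j (by omega) (by omega)
      have e3 := hs3 (a + 1) (by omega) (by omega) j (by omega) (by omega)
      unfold bt
      omega
    · subst ha
      have e1 := hB h0 (by omega)
      have e2 := hs3 a hik le_rfl j (by omega) (by omega)
      have e4 : g (a + 1) ≠ g j := fun e => by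
        have := B.inj _ _ (by omega) (by omega) (by omega) (by omega) e; omega
      unfold bt
      omega
    · exact B.accR h0 a ha h2 h3

/-! ### Lists -/

/-- The position of the segment `x` in the stack. -/
def pos (L : List ℕ) (x : ℕ) : ℕ := L.idxOf x

/-- The list `L` gives a block. -/
structure VL (n : ℕ) (up : ℕ → Bool) (i j : ℕ) (L : List ℕ) : Prop where
  nodup : L.Nodup
  mem : ∀ x, x ∈ L ↔ i ≤ x ∧ x ≤ j
  vh : VH n up (pos L) i j

theorem VL.length {n : ℕ} {up : ℕ → Bool} {i j : ℕ} {L : List ℕ} (V : VL n up i j L)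
    (hij : i ≤ j + 1) : L.length + i = j + 1 := by
  have h1 : L.toFinset = Finset.Icc i j := by
    ext x; rw [List.mem_toFinset, V.mem, Finset.mem_Icc]
  have h2 := List.toFinset_card_of_nodup V.nodup
  rw [h1, Nat.card_Icc] at h2
  omega

theorem pos_lt {L : List ℕ} {x : ℕ} (h : x ∈ L) : pos L x < L.length :=
  List.idxOf_lt_length_of_mem h

theorem pos_append_left {A B : List ℕ} {x : ℕ} (h : x ∈ A) : pos (A ++ B) x = pos A x :=
  List.idxOf_append_of_mem h

theorem pos_append_right {A B : List ℕ} {x : ℕ} (h : x ∉ A) :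
    pos (A ++ B) x = A.length + pos B x := List.idxOf_append_of_notMem h

/-- The arc `a` has the width `wid L a`. -/
def wid (L : List ℕ) (a : ℕ) : ℕ := (pos L (a + 1) - pos L a - 1) + (pos L a - pos L (a + 1) - 1)

/-- The number of layers covered by the left ray. -/
def lray (up : ℕ → Bool) (i : ℕ) (L : List ℕ) : ℕ :=
  if 0 < i then (if up (i - 1) then pos L i else L.length - 1 - pos L i) else 0

/-- The number of layers covered by the right ray. -/
def rray (n : ℕ) (up : ℕ → Bool) (j : ℕ) (L : List ℕ) : ℕ :=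
  if j < n then (if up j then L.length - 1 - pos L j else pos L j) else 0

/-- The cost of a block. -/
def cst (n : ℕ) (up : ℕ → Bool) (i j : ℕ) (L : List ℕ) : ℕ :=
  (∑ a ∈ Finset.Ico i j, wid L a) + lray up i L + rray n up j L

/-- The extra cost of a join. -/
def extra (n : ℕ) (up : ℕ → Bool) (i j k : ℕ) (τ : Bool) : ℕ :=
  (if 0 < i ∧ up (i - 1) ≠ τ then j - k else 0) + (if j < n ∧ up j ≠ τ then k + 1 - i else 0)

/-- The join of two blocks. -/
def joinL (τ : Bool) (A B : List ℕ) : List ℕ := if τ then A ++ B else B ++ A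

section

variable {n : ℕ} {up : ℕ → Bool} {i j k : ℕ} {A B : List ℕ} {τ : Bool}

theorem pos_joinL (hA : VL n up i k A) (hB : VL n up (k + 1) j B) (x : ℕ) :
    (i ≤ x → x ≤ k → pos (joinL τ A B) x = (if τ then 0 else B.length) + pos A x) ∧
      (k < x → x ≤ j → pos (joinL τ A B) x = (if τ then A.length else 0) + pos B x) := by
  constructor
  · intro h1 h2
    have m1 : x ∈ A := (hA.mem x).2 ⟨h1, h2⟩
    have m2 : x ∉ B := by rw [hB.mem]; omega
    cases τ
    · simp [joinL, pos_append_right m2]
    · simp [joinL, pos_append_left m1]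
  · intro h1 h2
    have m1 : x ∈ B := (hB.mem x).2 ⟨h1, h2⟩
    have m2 : x ∉ A := by rw [hA.mem]; omega
    cases τ
    · simp [joinL, pos_append_left m1]
    · simp [joinL, pos_append_right m2]

theorem sep_joinL (hA : VL n up i k A) (hB : VL n up (k + 1) j B) {x y : ℕ} (h1 : i ≤ x)
    (h2 : x ≤ k) (h3 : k < y) (h4 : y ≤ j) :
    (τ = true → pos (joinL τ A B) x < pos (joinL τ A B) y) ∧
      (τ = false → pos (joinL τ A B) y < pos (joinL τ A B) x) := by
  have p1 := (pos_joinL (τ := τ) hA hB x).1 h1 h2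
  have p2 := (pos_joinL (τ := τ) hA hB y).2 h3 h4
  have p3 : pos A x < A.length := pos_lt ((hA.mem x).2 ⟨h1, h2⟩)
  have p4 : pos B y < B.length := pos_lt ((hB.mem y).2 ⟨h3, h4⟩)
  rw [p1, p2]
  constructor
  · rintro rfl; simp; omega
  · rintro rfl; simp; omega

theorem VL.join (hik : i ≤ k) (hkj : k < j) (hjn : j ≤ n) (hA : VL n up i k A)
    (hB : VL n up (k + 1) j B) (hu : up k = τ)
    (hA' : 0 < i → i % 2 ≠ k % 2 → (pos A i < pos A k ↔ τ = true))
    (hB' : j < n → k % 2 = j % 2 → (pos B (k + 1) < pos B j ↔ τ = true)) :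
    VL n up i j (joinL τ A B) := by
  have sep := fun x y h1 h2 h3 h4 => sep_joinL (τ := τ) hA hB (x := x) (y := y) h1 h2 h3 h4
  have hs0 := sep k (k + 1) hik le_rfl (by omega) (by omega)
  have hs1 : pos (joinL τ A B) k < pos (joinL τ A B) (k + 1) ↔ τ = true := by
    cases τ
    · have := hs0.2 rfl
      simp; omega
    · have := hs0.1 rfl
      simp; omega
  have hmem : ∀ x, x ∈ joinL τ A B ↔ x ∈ A ∨ x ∈ B := by
    intro x
    cases τ
    · simp [joinL, or_comm]
    · simp [joinL]
  refine ⟨?_, ?_, ?_⟩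
  · have hd : List.Disjoint A B := by
      intro x h1 h2
      rw [hA.mem] at h1
      rw [hB.mem] at h2
      omega
    cases τ
    · simp only [joinL]
      exact List.Nodup.append hB.nodup hA.nodup hd.symm
    · simp only [joinL]
      exact List.Nodup.append hA.nodup hB.nodup hd
  · intro x
    rw [hmem, hA.mem, hB.mem]
    omega
  · refine VH.join hik hkj hjn (hA.vh.congr ?_) (hB.vh.congr ?_) ?_ ?_ ?_ ?_
    · intro x y h1 h2 h3 h4
      rw [(pos_joinL hA hB x).1 h1 h2, (pos_joinL hA hB y).1 h3 h4]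
      omega
    · intro x y h1 h2 h3 h4
      rw [(pos_joinL hA hB x).2 h1 h2, (pos_joinL hA hB y).2 h3 h4]
      omega
    · cases τ
      · exact Or.inr fun x y h1 h2 h3 h4 => (sep x y h1 h2 h3 h4).2 rfl
      · exact Or.inl fun x y h1 h2 h3 h4 => (sep x y h1 h2 h3 h4).1 rfl
    · rw [hs1, hu]
    · intro h1 h2
      rw [hs1, (pos_joinL hA hB i).1 le_rfl hik, (pos_joinL hA hB k).1 hik le_rfl]
      refine Iff.trans ?_ (hA' h1 h2)
      omega
    · intro h1 h2
      rw [hs1, (pos_joinL hA hB (k + 1)).2 (by omega) (by omega),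
        (pos_joinL hA hB j).2 hkj le_rfl]
      refine Iff.trans ?_ (hB' h1 h2)
      omega

theorem length_joinL : (joinL τ A B).length = A.length + B.length := by
  cases τ <;> simp [joinL, Nat.add_comm]

theorem typ_joinL (hik : i ≤ k) (hkj : k < j) (hA : VL n up i k A) (hB : VL n up (k + 1) j B) :
    pos (joinL τ A B) i < pos (joinL τ A B) j ↔ τ = true := by
  have := sep_joinL (τ := τ) hA hB (x := i) (y := j) le_rfl hik hkj le_rfl
  cases τ
  · have := this.2 rfl
    simp; omega
  · have := this.1 rfl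
    simp; omega

theorem cst_joinL (hik : i ≤ k) (hkj : k < j) (hA : VL n up i k A)
    (hB : VL n up (k + 1) j B) (hjn : j ≤ n) (hu : up k = τ) :
    cst n up i j (joinL τ A B) =
      cst n up i k A + cst n up (k + 1) j B + extra n up i j k τ := by
  have lA := hA.length (by omega)
  have lB := hB.length (by omega)
  have e1 : ∑ a ∈ Finset.Ico i j, wid (joinL τ A B) a =
      (∑ a ∈ Finset.Ico i k, wid A a) + wid (joinL τ A B) k +
        ∑ a ∈ Finset.Ico (k + 1) j, wid B a := by
    rw [← Finset.sum_Ico_consecutive _ hik hkj.le, Finset.sum_eq_sum_Ico_succ_bot hkj]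
    have a1 : ∑ a ∈ Finset.Ico i k, wid (joinL τ A B) a = ∑ a ∈ Finset.Ico i k, wid A a := by
      refine Finset.sum_congr rfl fun a ha => ?_
      rw [Finset.mem_Ico] at ha
      unfold wid
      rw [(pos_joinL hA hB a).1 ha.1 ha.2.le, (pos_joinL hA hB (a + 1)).1 (by omega) (by omega)]
      omega
    have a2 : ∑ a ∈ Finset.Ico (k + 1) j, wid (joinL τ A B) a =
        ∑ a ∈ Finset.Ico (k + 1) j, wid B a := by
      refine Finset.sum_congr rfl fun a ha => ?_
      rw [Finset.mem_Ico] at ha
      unfold wid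
      rw [(pos_joinL hA hB a).2 (by omega) (by omega),
        (pos_joinL hA hB (a + 1)).2 (by omega) (by omega)]
      omega
    rw [a1, a2]
    ring
  unfold cst
  rw [e1]
  have pi := (pos_joinL (τ := τ) hA hB i).1 le_rfl hik
  have pk := (pos_joinL (τ := τ) hA hB k).1 hik le_rfl
  have pk' := (pos_joinL (τ := τ) hA hB (k + 1)).2 (by omega) (by omega)
  have pj := (pos_joinL (τ := τ) hA hB j).2 hkj le_rfl
  have q1 : pos A i < A.length := pos_lt ((hA.mem i).2 ⟨le_rfl, hik⟩)
  have q2 : pos A k < A.length := pos_lt ((hA.mem k).2 ⟨hik, le_rfl⟩)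
  have q3 : pos B (k + 1) < B.length := pos_lt ((hB.mem _).2 ⟨le_rfl, by omega⟩)
  have q4 : pos B j < B.length := pos_lt ((hB.mem j).2 ⟨by omega, le_rfl⟩)
  have w1 : wid (joinL τ A B) k = rray n up k A + lray up (k + 1) B := by
    unfold wid rray lray
    rw [pk, pk', if_pos (show k < n by omega), if_pos (show 0 < k + 1 by omega),
      Nat.add_sub_cancel, hu]
    cases τ
    · simp; omega
    · simp; omega
  have w2 : lray up i (joinL τ A B) = lray up i A +
      (if 0 < i ∧ up (i - 1) ≠ τ then j - k else 0) := by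
    unfold lray
    rw [length_joinL, pi]
    by_cases h0 : 0 < i
    · rw [if_pos h0, if_pos h0]
      cases τ <;> cases up (i - 1) <;> simp [h0] <;> omega
    · rw [if_neg h0, if_neg h0, if_neg (fun h => h0 h.1)]
  have w3 : rray n up j (joinL τ A B) = rray n up j B +
      (if j < n ∧ up j ≠ τ then k + 1 - i else 0) := by
    unfold rray
    rw [length_joinL, pj]
    by_cases h0 : j < n
    · rw [if_pos h0, if_pos h0]
      cases τ <;> cases up j <;> simp [h0] <;> omega
    · rw [if_neg h0, if_neg h0, if_neg (fun h => h0 h.1)]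
  rw [w1, w2, w3]
  unfold extra
  ring

end

end Pool.Agent.Lib.MP_868dd5_lc
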