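import Pool.Agent.Lib.MP_868dd5_lc.Restrict
import Pool.Agent.Lib.MP_868dd5_lc.Join

/-!
# The dynamic program
-/

namespace Pool.Agent.Lib.MP_868dd5_lc

/-- A candidate solution: the cost and the segments from bottom to top. -/
abbrev Sol : Type := Option (ℕ × List ℕ)

/-- The cheaper one of two candidates. -/
def better : Sol → Sol → Sol
  | none, y => y
  | some x, none => some x
  | some x, some y => if x.1 ≤ y.1 then some x else some y

/-- The cheapest candidate. -/
def best (l : List Sol) : Sol := l.foldl better none

theorem better_mem {a b : Sol} {x : ℕ × List ℕ} (h : better a b = some x) :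
    a = some x ∨ b = some x := by
  cases a with
  | none => exact Or.inr h
  | some a =>
    cases b with
    | none => exact Or.inl h
    | some b =>
      simp only [better] at h
      split_ifs at h
      · exact Or.inl h
      · exact Or.inr h

theorem better_le {a b : Sol} {y : ℕ × List ℕ} (h : a = some y ∨ b = some y) :
    ∃ x, better a b = some x ∧ x.1 ≤ y.1 := by
  cases a with
  | none =>
    rcases h with h | h
    · exact absurd h (by simp)
    · exact ⟨y, h, le_rfl⟩
  | some a =>
    cases b with
    | none =>
      rcases h with h | h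
      · exact ⟨y, h, le_rfl⟩
      · exact absurd h (by simp)
    | some b =>
      simp only [better, Option.some.injEq] at *
      split_ifs with h1
      · rcases h with h | h
        · subst h; exact ⟨_, rfl, le_rfl⟩
        · subst h; exact ⟨_, rfl, h1⟩
      · rcases h with h | h
        · subst h; exact ⟨_, rfl, by omega⟩
        · subst h; exact ⟨_, rfl, le_rfl⟩

theorem foldl_better_mem {l : List Sol} {a : Sol} {x : ℕ × List ℕ}
    (h : l.foldl better a = some x) : a = some x ∨ some x ∈ l := by
  induction l generalizing a with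
  | nil => exact Or.inl h
  | cons b l ih =>
    rw [List.foldl_cons] at h
    rcases ih h with h | h
    · rcases better_mem h with h | h
      · exact Or.inl h
      · exact Or.inr (by rw [h]; exact List.mem_cons_self)
    · exact Or.inr (List.mem_cons_of_mem _ h)

theorem foldl_better_le {l : List Sol} {a : Sol} {y : ℕ × List ℕ}
    (h : a = some y ∨ some y ∈ l) : ∃ x, l.foldl better a = some x ∧ x.1 ≤ y.1 := by
  induction l generalizing a y with
  | nil =>
    rcases h with h | h
    · exact ⟨y, h, le_rfl⟩
    · exact absurd h (by simp)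
  | cons b l ih =>
    rw [List.foldl_cons]
    rw [List.mem_cons] at h
    have h' : (a = some y ∨ b = some y) ∨ some y ∈ l := by
      rcases h with h | h | h
      · exact Or.inl (Or.inl h)
      · exact Or.inl (Or.inr h.symm)
      · exact Or.inr h
    rcases h' with h | h
    · obtain ⟨z, h1, h2⟩ := better_le h
      obtain ⟨x, h3, h4⟩ := ih (y := z) (Or.inl h1)
      exact ⟨x, h3, h4.trans h2⟩
    · exact ih (Or.inr h)

theorem best_mem {l : List Sol} {x : ℕ × List ℕ} (h : best l = some x) : some x ∈ l := by
  rcases foldl_better_mem h with h | h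
  · exact absurd h (by simp)
  · exact h

theorem best_le {l : List Sol} {y : ℕ × List ℕ} (h : some y ∈ l) :
    ∃ x, best l = some x ∧ x.1 ≤ y.1 := foldl_better_le (Or.inr h)

/-- The component of a pair of candidates. -/
def compo (τ : Bool) (p : Sol × Sol) : Sol := if τ then p.1 else p.2

/-- The candidate for a block that can be used inside a block of type `τ`. -/
def pick (n i j : ℕ) (τ : Bool) (p : Sol × Sol) : Sol :=
  if 0 < i ∧ j < n ∧ i % 2 ≠ j % 2 then compo τ p else better p.1 p.2

/-- The join of two candidates. -/
def comb (n : ℕ) (up : ℕ → Bool) (i j k : ℕ) (τ : Bool) : Sol → Sol → Sol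
  | some a, some b => some (a.1 + b.1 + extra n up i j k τ, joinL τ a.2 b.2)
  | _, _ => none

/-- The entry of the table `T` for the block of length `l` that begins with `i`. -/
def get (T : List (List (Sol × Sol))) (l i : ℕ) : Sol × Sol := (T.getD l []).getD i (none, none)

/-- The candidate that is split after the segment `i + k`. -/
def cand (n : ℕ) (up : ℕ → Bool) (T : List (List (Sol × Sol))) (l i : ℕ) (τ : Bool) (k : ℕ) :
    Sol :=
  if up (i + k) = τ then
    comb n up i (i + l) (i + k) τ (pick n i (i + k) τ (get T k i))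
      (pick n (i + k + 1) (i + l) τ (get T (l - k - 1) (i + k + 1)))
  else none

/-- The cheapest candidates of the two types. -/
def entry (n : ℕ) (up : ℕ → Bool) (T : List (List (Sol × Sol))) (l i : ℕ) : Sol × Sol :=
  if l = 0 then (some (0, [i]), some (0, [i])) else
    (best ((List.range l).map (cand n up T l i true)),
      best ((List.range l).map (cand n up T l i false)))

/-- The next row. -/
def row (n : ℕ) (up : ℕ → Bool) (T : List (List (Sol × Sol))) (l : ℕ) : List (Sol × Sol) :=
  (List.range (n + 1 - l)).map (entry n up T l)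

/-- The table. -/
def tab (n : ℕ) (up : ℕ → Bool) : ℕ → List (List (Sol × Sol))
  | 0 => []
  | m + 1 => tab n up m ++ [row n up (tab n up m) m]

/-- The solution for the block `[i, i + l]`. -/
def sol (n : ℕ) (up : ℕ → Bool) (l i : ℕ) : Sol × Sol := entry n up (tab n up l) l i

theorem length_tab (n : ℕ) (up : ℕ → Bool) (m : ℕ) : (tab n up m).length = m := by
  induction m with
  | zero => rfl
  | succ m ih => rw [tab, List.length_append, ih]; rfl

theorem getD_tab (n : ℕ) (up : ℕ → Bool) {m l : ℕ} (h : l < m) :
    (tab n up m).getD l [] = row n up (tab n up l) l := by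
  induction m with
  | zero => omega
  | succ m ih =>
    rw [tab]
    rcases Nat.lt_succ_iff_lt_or_eq.1 h with h1 | h1
    · rw [List.getD_append _ _ _ _ (by rw [length_tab]; exact h1)]
      exact ih h1
    · subst h1
      rw [List.getD_append_right _ _ _ _ (by rw [length_tab])]
      rw [length_tab, Nat.sub_self]; rfl

theorem get_tab {n : ℕ} {up : ℕ → Bool} {m l i : ℕ} (h : l < m) (h' : i + l ≤ n) :
    get (tab n up m) l i = sol n up l i := by
  unfold get sol
  rw [getD_tab n up h, row, List.getD_eq_getElem?_getD, List.getElem?_map,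
    List.getElem?_range (by omega)]
  rfl

/-! ### Correctness -/

/-- The first arc of the block. -/
def pp (i : ℕ) : ℤ := if 0 < i then (i : ℤ) - 1 else i

/-- The last arc of the block. -/
def qq (n j : ℕ) : ℤ := if j < n then (j : ℤ) else (j : ℤ) - 1

/-- A state of the block `[i, j]`. -/
structure St (n : ℕ) (up : ℕ → Bool) (i j : ℕ) (h : ℤ → ℤ) : Prop where
  blk : Blk h i j (pp i) (qq n j)
  sgn : ∀ a : ℕ, pp i ≤ a → (a : ℤ) ≤ qq n j → (h a < h (a + 1) ↔ up a = true)

/-- The pair `p` of candidates is valid and optimal. -/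
structure OptP (n : ℕ) (up : ℕ → Bool) (i j : ℕ) (p : Sol × Sol) : Prop where
  valid : ∀ τ c L, compo τ p = some (c, L) → VL n up i j L ∧ cst n up i j L = c ∧
    (i < j → (pos L i < pos L j ↔ τ = true))
  opt : ∀ h, St n up i j h → ∃ c L, pick n i j (decide (h i < h j)) p = some (c, L) ∧
    c ≤ cost h i j (pp i) (qq n j)

theorem pick_valid {n : ℕ} {up : ℕ → Bool} {i j : ℕ} {p : Sol × Sol} (O : OptP n up i j p)
    {τ : Bool} {c : ℕ} {L : List ℕ} (h : pick n i j τ p = some (c, L)) :
    VL n up i j L ∧ cst n up i j L = c ∧
      (0 < i → j < n → i % 2 ≠ j % 2 → i < j → (pos L i < pos L j ↔ τ = true)) := by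
  unfold pick at h
  split_ifs at h with h1
  · obtain ⟨a, b, d⟩ := O.valid τ c L h
    exact ⟨a, b, fun _ _ _ => d⟩
  · rcases better_mem h with h2 | h2
    · obtain ⟨a, b, d⟩ := O.valid true c L h2
      exact ⟨a, b, fun x1 x2 x3 => absurd ⟨x1, x2, x3⟩ h1⟩
    · obtain ⟨a, b, d⟩ := O.valid false c L h2
      exact ⟨a, b, fun x1 x2 x3 => absurd ⟨x1, x2, x3⟩ h1⟩

theorem vh_single (n : ℕ) (up : ℕ → Bool) (g : ℕ → ℕ) (i : ℕ) : VH n up g i i := by
  refine ⟨?_, ?_, ?_, ?_, ?_⟩
  · intro x y h1 h2 h3 h4 _; omega
  · intro a h1 h2; omega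
  · intro a c h1 h2; omega
  · intro _ a h1 h2; omega
  · intro _ a h1 h2; omega

theorem sol_zero (n : ℕ) (up : ℕ → Bool) (i : ℕ) :
    sol n up 0 i = (some (0, [i]), some (0, [i])) := by
  unfold sol entry; rw [if_pos rfl]

theorem optP_zero (n : ℕ) (up : ℕ → Bool) (i : ℕ) : OptP n up i i (sol n up 0 i) := by
  rw [sol_zero]
  constructor
  · intro τ c L h
    have h' : (0, [i]) = (c, L) := by
      cases τ
      · exact Option.some.inj h
      · exact Option.some.inj h
    rw [Prod.mk.injEq] at h'
    obtain ⟨rfl, rfl⟩ := h'
    refine ⟨⟨by simp, ?_, vh_single _ _ _ _⟩, ?_, fun h => absurd h (lt_irrefl _)⟩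
    · intro x; rw [List.mem_singleton]; omega
    · unfold cst lray rray pos
      simp
  · intro h _
    refine ⟨0, [i], ?_, Nat.zero_le _⟩
    unfold pick
    rw [if_neg (by tauto)]
    rfl

theorem joinL_type {i j k : ℕ} {h : ℤ → ℤ} (hs : (∀ x y : ℤ, (i : ℤ) ≤ x → x ≤ k → (k : ℤ) < y →
    y ≤ j → h x < h y) ∨ (∀ x y : ℤ, (i : ℤ) ≤ x → x ≤ k → (k : ℤ) < y → y ≤ j → h y < h x))
    (hik : i ≤ k) (hkj : k < j) : (h i < h j ↔ h k < h (k + 1)) := by
  rcases hs with H | H
  · have h1 := H i j le_rfl (by omega) (by omega) le_rfl
    have h2 := H k (k + 1) (by omega) le_rfl (by omega) (by omega)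
    omega
  · have h1 := H i j le_rfl (by omega) (by omega) le_rfl
    have h2 := H k (k + 1) (by omega) le_rfl (by omega) (by omega)
    omega

theorem optP_sol (n : ℕ) (up : ℕ → Bool) (l : ℕ) : ∀ i, i + l ≤ n →
    OptP n up i (i + l) (sol n up l i) := by
  induction l using Nat.strong_induction_on with
  | _ l ih =>
  intro i hi
  rcases Nat.eq_zero_or_pos l with h0 | h0
  · subst h0; exact optP_zero n up i
  have hsol : ∀ τ, compo τ (sol n up l i) =
      best ((List.range l).map (cand n up (tab n up l) l i τ)) := by
    intro τ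
    unfold sol entry
    rw [if_neg (by omega)]
    cases τ <;> rfl
  -- the candidates
  have hcand : ∀ τ k, k < l → cand n up (tab n up l) l i τ k =
      if up (i + k) = τ then comb n up i (i + l) (i + k) τ (pick n i (i + k) τ (sol n up k i))
        (pick n (i + k + 1) (i + l) τ (sol n up (l - k - 1) (i + k + 1))) else none := by
    intro τ k hk
    unfold cand
    rw [get_tab hk (by omega), get_tab (by omega) (by omega)]
  have ihA : ∀ k, k < l → OptP n up i (i + k) (sol n up k i) := fun k hk => ih k hk i (by omega)
  have ihB : ∀ k, k < l → OptP n up (i + k + 1) (i + l) (sol n up (l - k - 1) (i + k + 1)) := by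
    intro k hk
    have := ih (l - k - 1) (by omega) (i + k + 1) (by omega)
    rwa [show i + k + 1 + (l - k - 1) = i + l by omega] at this
  refine ⟨?_, ?_⟩
  · intro τ c L hc
    rw [hsol] at hc
    obtain ⟨k, hk, hk'⟩ := List.mem_map.1 (best_mem hc)
    rw [List.mem_range] at hk
    rw [hcand τ k hk] at hk'
    split_ifs at hk' with hup
    rcases ha : pick n i (i + k) τ (sol n up k i) with _ | a
    · rw [ha] at hk'; simp [comb] at hk'
    rcases hb : pick n (i + k + 1) (i + l) τ (sol n up (l - k - 1) (i + k + 1)) with _ | b
    · rw [ha, hb] at hk'; simp [comb] at hk'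
    rw [ha, hb] at hk'
    simp only [comb, Option.some.injEq, Prod.mk.injEq] at hk'
    obtain ⟨ca, A⟩ := a
    obtain ⟨cb, B⟩ := b
    obtain ⟨va, wa, ta⟩ := pick_valid (ihA k hk) ha
    obtain ⟨vb, wb, tb⟩ := pick_valid (ihB k hk) hb
    obtain ⟨e1, e2⟩ := hk'
    simp only at e1 e2
    subst e2
    refine ⟨?_, ?_, ?_⟩
    · refine VL.join (by omega) (by omega) hi va vb hup ?_ ?_
      · intro h1 h2
        exact ta h1 (by omega) h2 (by omega)
      · intro h1 h2
        exact tb (by omega) h1 (by omega) (by omega)
    · rw [cst_joinL (by omega) (by omega) va vb hi hup, wa, wb, e1]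
    · intro _
      exact typ_joinL (by omega) (by omega) va vb
  · intro h S
    have hij : (i : ℤ) < ((i + l : ℕ) : ℤ) := by push_cast; omega
    have hp := S.blk.hp
    have hq := S.blk.hq
    obtain ⟨h', B', hsgn, hout, hcost, k', hk1, hk2, hs⟩ := good S.blk hij
    obtain ⟨k, rfl⟩ : ∃ k : ℕ, k' = ((i + k : ℕ) : ℤ) := ⟨(k' - i).toNat, by omega⟩
    have hkl : k < l := by omega
    have S' : St n up i (i + l) h' := by
      refine ⟨B', fun a h1 h2 => ?_⟩
      rw [hsgn _ h1 h2]
      exact S.sgn a h1 h2
    -- the type of the new state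
    obtain ⟨τ, hτ⟩ : ∃ τ : Bool, τ = decide (h' ((i + k : ℕ) : ℤ) < h' (((i + k : ℕ) : ℤ) + 1)) :=
      ⟨_, rfl⟩
    have htype := joinL_type (h := h') hs (by omega) (by omega)
    have hup : up (i + k) = τ := by
      have := S'.sgn (i + k) (by unfold pp; split_ifs <;> omega)
        (by unfold qq; split_ifs <;> omega)
      rw [hτ]
      cases hu : up (i + k)
      · rw [hu] at this
        simp only [Bool.false_eq_true, iff_false] at this
        exact (decide_eq_false this).symm
      · rw [hu] at this
        exact (decide_eq_true (this.2 rfl)).symm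
    have hτ' : τ = true ↔ h' ((i + k : ℕ) : ℤ) < h' (((i + k : ℕ) : ℤ) + 1) := by
      rw [hτ]; exact decide_eq_true_iff
    have hττ : τ = true ∨ τ = false := by cases τ <;> simp
    have hsep : (τ = true → ∀ x y : ℤ, (i : ℤ) ≤ x → x ≤ ((i + k : ℕ) : ℤ) →
        ((i + k : ℕ) : ℤ) < y → y ≤ ((i + l : ℕ) : ℤ) → h' x < h' y) ∧
        (τ = false → ∀ x y : ℤ, (i : ℤ) ≤ x → x ≤ ((i + k : ℕ) : ℤ) →
        ((i + k : ℕ) : ℤ) < y → y ≤ ((i + l : ℕ) : ℤ) → h' y < h' x) := by
      rcases hs with H | H
      · refine ⟨fun _ => H, fun hf => ?_⟩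
        have := H (i + k : ℕ) ((i + k : ℕ) + 1) (by omega) (by omega) (by omega) (by omega)
        rw [← hτ', hf] at this
        exact absurd this (by simp)
      · refine ⟨fun hf => ?_, fun _ => H⟩
        have h1 := H (i + k : ℕ) ((i + k : ℕ) + 1) (by omega) (by omega) (by omega) (by omega)
        have h2 := hτ'.1 hf
        omega
    have epA : pp i ≤ ((i + k : ℕ) : ℤ) := by unfold pp; split_ifs <;> omega
    have eqA : qq n (i + k) = ((i + k : ℕ) : ℤ) := by unfold qq; rw [if_pos (by omega)]
    have epB : pp (i + k + 1) = ((i + k : ℕ) : ℤ) := by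
      unfold pp; rw [if_pos (by omega)]; push_cast; ring
    have BA := B'.restrictA (by omega) (by omega) hs
    have BB := B'.restrictB (by omega) (by omega) hs
    have SA : St n up i (i + k) h' := by
      refine ⟨by rw [eqA]; exact BA, fun a h1 h2 => ?_⟩
      rw [eqA] at h2
      exact S'.sgn a h1 (by unfold qq; split_ifs <;> omega)
    have SB : St n up (i + k + 1) (i + l) h' := by
      refine ⟨by rw [epB]; push_cast at BB ⊢; exact BB, fun a h1 h2 => ?_⟩
      rw [epB] at h1
      exact S'.sgn a (by unfold pp; split_ifs <;> omega) h2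
    obtain ⟨cA, LA, pA, leA⟩ := (ihA k hkl).opt h' SA
    obtain ⟨cB, LB, pB, leB⟩ := (ihB k hkl).opt h' SB
    -- the types of the two parts
    have pA' : pick n i (i + k) τ (sol n up k i) = some (cA, LA) := by
      rw [← pA]
      unfold pick
      split_ifs with hc
      · congr 1
        have := typA B' (k := ((i + k : ℕ) : ℤ)) (by omega) (by omega)
          (by unfold pp; rw [if_pos hc.1]) (by omega)
        rcases hττ with e | e
        · rw [e]; exact (decide_eq_true (this.1 (hsep.1 e))).symm
        · rw [e]
          have h2 := this.2 (hsep.2 e)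
          exact (decide_eq_false (by omega)).symm
      · rfl
    have pB' : pick n (i + k + 1) (i + l) τ (sol n up (l - k - 1) (i + k + 1)) =
        some (cB, LB) := by
      rw [← pB]
      unfold pick
      split_ifs with hc
      · congr 1
        have := typB B' (k := ((i + k : ℕ) : ℤ)) (by omega) (by omega)
          (by unfold qq; rw [if_pos hc.2.1]) (by omega)
        rcases hττ with e | e
        · rw [e]
          have h2 := this.1 (hsep.1 e)
          exact (decide_eq_true (by push_cast at h2 ⊢; exact h2)).symm
        · rw [e]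
          have h2 := this.2 (hsep.2 e)
          exact (decide_eq_false (by push_cast at h2 ⊢; omega)).symm
      · rfl
    -- the cost
    have hadd := add_ge (h := h') (i := i) (j := ((i + l : ℕ) : ℤ)) (p := pp i)
      (q := qq n (i + l)) (k := ((i + k : ℕ) : ℤ)) (by omega) (by omega) hp hq
      (if 0 < i ∧ up (i - 1) ≠ τ then i + l - (i + k) else 0)
      (if i + l < n ∧ up (i + l) ≠ τ then i + k + 1 - i else 0)
      (by
        split_ifs with hc
        · right
          have e1 : pp i = (i : ℤ) - 1 := by unfold pp; rw [if_pos hc.1]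
          refine ⟨e1, by omega, fun z hz hz' => ?_⟩
          have hu := S'.sgn (i - 1) (by omega) (by unfold qq; split_ifs <;> omega)
          rw [show ((i - 1 : ℕ) : ℤ) = (i : ℤ) - 1 by omega, sub_add_cancel] at hu
          unfold btw
          rw [sub_add_cancel]
          rcases hττ with e | e
          · have h3 : up (i - 1) ≠ true := by rw [← e]; exact hc.2
            have h4 : ¬ h' (i - 1) < h' i := fun h => h3 (hu.1 h)
            have h5 := hsep.1 e i z le_rfl (by omega) hz hz'
            rcases B'.left e1 with H | H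
            · exact absurd (H i le_rfl hij.le) h4
            · exact Or.inr ⟨h5, H z (by omega) hz'⟩
          · have h3 : up (i - 1) = true := by
              cases h : up (i - 1)
              · exact absurd (h.trans e.symm) hc.2
              · rfl
            have h4 := hu.2 h3
            have h5 := hsep.2 e i z le_rfl (by omega) hz hz'
            rcases B'.left e1 with H | H
            · exact Or.inl ⟨H z (by omega) hz', h5⟩
            · have := H i le_rfl hij.le; omega
        · exact Or.inl rfl)
      (by
        split_ifs with hc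
        · right
          have e1 : qq n (i + l) = ((i + l : ℕ) : ℤ) := by unfold qq; rw [if_pos hc.1]
          refine ⟨e1, by omega, fun z hz hz' => ?_⟩
          have hu := S'.sgn (i + l) (by unfold pp; split_ifs <;> omega) (by omega)
          unfold btw
          rcases hττ with e | e
          · have h3 : up (i + l) ≠ true := by rw [← e]; exact hc.2
            have h4 : ¬ h' ((i + l : ℕ) : ℤ) < h' (((i + l : ℕ) : ℤ) + 1) := fun h => h3 (hu.1 h)
            have h5 := hsep.1 e z ((i + l : ℕ) : ℤ) hz hz' (by omega) le_rfl
            rcases B'.right e1 with H | H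
            · exact Or.inr ⟨H z hz (by omega), h5⟩
            · exact absurd (H _ hij.le le_rfl) h4
          · have h3 : up (i + l) = true := by
              cases h : up (i + l)
              · exact absurd (h.trans e.symm) hc.2
              · rfl
            have h4 := hu.2 h3
            have h5 := hsep.2 e z ((i + l : ℕ) : ℤ) hz hz' (by omega) le_rfl
            rcases B'.right e1 with H | H
            · have := H _ hij.le le_rfl; omega
            · exact Or.inl ⟨h5, H z hz (by omega)⟩
        · exact Or.inl rfl)
    -- the candidate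
    have hmem : some (cA + cB + extra n up i (i + l) (i + k) τ, joinL τ LA LB) ∈
        (List.range l).map (cand n up (tab n up l) l i τ) := by
      refine List.mem_map.2 ⟨k, List.mem_range.2 hkl, ?_⟩
      rw [hcand τ k hkl, if_pos hup, pA', pB']
      rfl
    obtain ⟨⟨c, L⟩, hb1, hb2⟩ := best_le hmem
    rw [← hsol] at hb1
    have hfin : c ≤ cost h i ((i + l : ℕ) : ℤ) (pp i) (qq n (i + l)) := by
      rw [eqA] at leA
      rw [epB] at leB
      have e5 : ((i + k + 1 : ℕ) : ℤ) = ((i + k : ℕ) : ℤ) + 1 := by push_cast; ring
      rw [e5] at leB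
      unfold extra at hb2
      simp only at hb2
      omega
    -- choose the type
    by_cases hc : 0 < i ∧ i + l < n ∧ i % 2 ≠ (i + l) % 2
    · refine ⟨c, L, ?_, hfin⟩
      unfold pick
      rw [if_pos hc, ← hb1]
      congr 1
      have e1 : pp i = (i : ℤ) - 1 := by unfold pp; rw [if_pos hc.1]
      have e2 : qq n (i + l) = ((i + l : ℕ) : ℤ) := by unfold qq; rw [if_pos hc.2.1]
      have ht := typ_eq S.blk B' hij e1 e2 (by omega)
        (by
          have := hsgn (i - 1) (by omega) (by omega)
          rw [sub_add_cancel] at this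
          exact this)
        (hsgn _ (by omega) (by omega)) (hout e1 e2)
      rcases hττ with e | e
      · rw [e]
        refine decide_eq_true ?_
        rw [← ht, htype]
        exact hτ'.1 e
      · rw [e]
        refine decide_eq_false ?_
        rw [← ht, htype, ← hτ', e]
        simp
    · unfold pick
      simp only [if_neg hc]
      obtain ⟨⟨c', L'⟩, hb3, hb4⟩ := better_le (a := (sol n up l i).1) (b := (sol n up l i).2)
        (y := (c, L)) (by
          rcases hττ with e | e
          · left; rw [e] at hb1; exact hb1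
          · right; rw [e] at hb1; exact hb1)
      exact ⟨c', L', hb3, le_trans hb4 hfin⟩

end Pool.Agent.Lib.MP_868dd5_lc
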