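import Mathlib

/-!
# Blocks of folded strips

Segments are indexed by integers, the arc (crease) `a` joins the segments `a` and `a + 1`, and the
arcs of the same parity lie on the same side of the stack. A folded state is given by the heights
of the segments.
-/

namespace Pool.Agent.Lib.MP_868dd5_lc

open Finset

/-- The segment `z` lies strictly between the two ends of the arc `a`. -/
def btw (h : ℤ → ℤ) (a z : ℤ) : Prop :=
  (h a < h z ∧ h z < h (a + 1)) ∨ (h (a + 1) < h z ∧ h z < h a)

instance decBtw (h : ℤ → ℤ) (a z : ℤ) : Decidable (btw h a z) :=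
  inferInstanceAs (Decidable ((h a < h z ∧ h z < h (a + 1)) ∨ (h (a + 1) < h z ∧ h z < h a)))

/-- A block `[i, j]` of segments with the arcs `p, ..., q`: all the inner arcs, and possibly the
arc `i - 1` (then the segment `i - 1` is below or above the whole block) and the arc `j` (then
the segment `j + 1` is below or above the whole block). Arcs on the same side do not cross. -/
structure Blk (h : ℤ → ℤ) (i j p q : ℤ) : Prop where
  hp : p = i ∨ p = i - 1
  hq : q = j - 1 ∨ q = j
  inj : ∀ x y, p ≤ x → x ≤ q + 1 → p ≤ y → y ≤ q + 1 → h x = h y → x = y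
  nc : ∀ a c, p ≤ a → a ≤ q → p ≤ c → c ≤ q → a ≠ c → (a - c) % 2 = 0 →
    (btw h a c ↔ btw h a (c + 1))
  left : p = i - 1 → (∀ z, i ≤ z → z ≤ j → h (i - 1) < h z) ∨
    (∀ z, i ≤ z → z ≤ j → h z < h (i - 1))
  right : q = j → (∀ z, i ≤ z → z ≤ j → h (j + 1) < h z) ∨
    (∀ z, i ≤ z → z ≤ j → h z < h (j + 1))

/-- The total width of the arcs, counting only the layers of the block. -/
noncomputable def cost (h : ℤ → ℤ) (i j p q : ℤ) : ℕ :=
  ∑ a ∈ Icc p q, ((Icc i j).filter fun z => btw h a z).card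

theorem cost_eq (h : ℤ → ℤ) (i j p q : ℤ) :
    cost h i j p q = ∑ z ∈ Icc i j, ((Icc p q).filter fun a => btw h a z).card := by
  unfold cost
  simp only [card_filter]
  exact sum_comm

/-- The conclusion of one step of the rearrangement. -/
def Good (h : ℤ → ℤ) (i j p q : ℤ) : Prop :=
  ∃ h' : ℤ → ℤ, Blk h' i j p q ∧
    (∀ a, p ≤ a → a ≤ q → (h' a < h' (a + 1) ↔ h a < h (a + 1))) ∧
    (p = i - 1 → q = j → (h' (i - 1) < h' (j + 1) ↔ h (i - 1) < h (j + 1))) ∧
    cost h' i j p q ≤ cost h i j p q ∧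
    ∃ k, i ≤ k ∧ k < j ∧
      ((∀ x y, i ≤ x → x ≤ k → k < y → y ≤ j → h' x < h' y) ∨
        (∀ x y, i ≤ x → x ≤ k → k < y → y ≤ j → h' y < h' x))

/-! ### Symmetries -/

theorem btw_neg (h : ℤ → ℤ) (a z : ℤ) : btw (fun x => - h x) a z ↔ btw h a z := by
  unfold btw; simp only [neg_lt_neg_iff]; tauto

theorem btw_rev (h : ℤ → ℤ) (a z : ℤ) : btw (fun x => h (-x)) a z ↔ btw h (-a - 1) (-z) := by
  unfold btw
  rw [show -a - 1 + 1 = -a by ring]
  simp only [show -(a + 1) = -a - 1 by ring]
  tauto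

theorem Blk.neg {h : ℤ → ℤ} {i j p q : ℤ} (B : Blk h i j p q) :
    Blk (fun x => - h x) i j p q where
  hp := B.hp
  hq := B.hq
  inj x y h1 h2 h3 h4 h5 := B.inj x y h1 h2 h3 h4 (neg_injective h5)
  nc a c h1 h2 h3 h4 h5 h6 := by
    rw [btw_neg, btw_neg]; exact B.nc a c h1 h2 h3 h4 h5 h6
  left hl := by
    rcases B.left hl with H | H
    · exact Or.inr fun z h1 h2 => neg_lt_neg (H z h1 h2)
    · exact Or.inl fun z h1 h2 => neg_lt_neg (H z h1 h2)
  right hr := by
    rcases B.right hr with H | H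
    · exact Or.inr fun z h1 h2 => neg_lt_neg (H z h1 h2)
    · exact Or.inl fun z h1 h2 => neg_lt_neg (H z h1 h2)

theorem Blk.rev {h : ℤ → ℤ} {i j p q : ℤ} (B : Blk h i j p q) :
    Blk (fun x => h (-x)) (-j) (-i) (-q - 1) (-p - 1) where
  hp := by have := B.hq; omega
  hq := by have := B.hp; omega
  inj x y h1 h2 h3 h4 h5 := by
    have := B.inj (-x) (-y) (by omega) (by omega) (by omega) (by omega) h5
    omega
  nc a c h1 h2 h3 h4 h5 h6 := by
    rw [btw_rev, btw_rev, show -(c + 1) = -c - 1 by ring]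
    have := B.nc (-a - 1) (-c - 1) (by omega) (by omega) (by omega) (by omega) (by omega)
      (by omega)
    rw [show -c - 1 + 1 = -c by ring] at this
    exact this.symm
  left hl := by
    rw [show -(-j - 1) = j + 1 by ring]
    rcases B.right (by omega) with H | H
    · exact Or.inl fun z h1 h2 => H _ (by omega) (by omega)
    · exact Or.inr fun z h1 h2 => H _ (by omega) (by omega)
  right hr := by
    rw [show -(-i + 1) = i - 1 by ring]
    rcases B.left (by omega) with H | H
    · exact Or.inl fun z h1 h2 => H _ (by omega) (by omega)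
    · exact Or.inr fun z h1 h2 => H _ (by omega) (by omega)

theorem cost_neg (h : ℤ → ℤ) (i j p q : ℤ) :
    cost (fun x => - h x) i j p q = cost h i j p q := by
  unfold cost
  simp only [btw_neg]

theorem cost_rev (h : ℤ → ℤ) (i j p q : ℤ) :
    cost (fun x => h (-x)) (-j) (-i) (-q - 1) (-p - 1) = cost h i j p q := by
  unfold cost
  refine sum_nbij' (fun a => -a - 1) (fun a => -a - 1) ?_ ?_ ?_ ?_ ?_
  · intro a ha; rw [mem_Icc] at *; omega
  · intro a ha; rw [mem_Icc] at *; omega
  · intro a _; ring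
  · intro a _; ring
  · intro a _
    refine card_nbij' (fun z => -z) (fun z => -z) ?_ ?_ ?_ ?_
    · intro z hz
      simp only [coe_filter, mem_Icc, Set.mem_ofPred_eq, btw_rev] at *
      exact ⟨by omega, hz.2⟩
    · intro z hz
      simp only [coe_filter, mem_Icc, Set.mem_ofPred_eq, btw_rev, neg_neg] at *
      exact ⟨by omega, hz.2⟩
    · intro z _; simp
    · intro z _; simp

theorem lt_iff_of_ne {x y x' y' : ℤ} (h1 : x ≠ y) (h2 : x' ≠ y') (h : x < y ↔ x' < y') :
    (y < x ↔ y' < x') := by omega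

theorem Good.of_neg {h : ℤ → ℤ} {i j p q : ℤ} (B₀ : Blk h i j p q) (hij : i ≤ j)
    (G : Good (fun x => - h x) i j p q) : Good h i j p q := by
  obtain ⟨h', B, h1, h2, h3, k, hk1, hk2, h4⟩ := G
  have hp := B₀.hp
  have hq := B₀.hq
  have aux : ∀ x y, p ≤ x → x ≤ q + 1 → p ≤ y → y ≤ q + 1 → x ≠ y →
      (h' x < h' y ↔ - h x < - h y) → (-h' x < -h' y ↔ h x < h y) := by
    intro x y hx1 hx2 hy1 hy2 hxy H
    have e1 : h x ≠ h y := fun e => hxy (B₀.inj _ _ hx1 hx2 hy1 hy2 e)
    have e2 : h' x ≠ h' y := fun e => hxy (B.inj _ _ hx1 hx2 hy1 hy2 e)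
    omega
  refine ⟨fun x => - h' x, B.neg, ?_, ?_, ?_, k, hk1, hk2, ?_⟩
  · intro a ha ha'
    exact aux _ _ (by omega) (by omega) (by omega) (by omega) (by omega) (h1 a ha ha')
  · intro e1 e2
    exact aux _ _ (by omega) (by omega) (by omega) (by omega) (by omega) (h2 e1 e2)
  · rw [cost_neg]; rwa [cost_neg] at h3
  · rcases h4 with H | H
    · exact Or.inr fun x y a b c d => neg_lt_neg (H x y a b c d)
    · exact Or.inl fun x y a b c d => neg_lt_neg (H x y a b c d)

theorem Good.of_rev {h : ℤ → ℤ} {i j p q : ℤ} (B₀ : Blk h i j p q) (hij : i ≤ j)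
    (G : Good (fun x => h (-x)) (-j) (-i) (-q - 1) (-p - 1)) : Good h i j p q := by
  obtain ⟨h', B, h1, h2, h3, k, hk1, hk2, h4⟩ := G
  have hp := B₀.hp
  have hq := B₀.hq
  have B' := B.rev
  simp only [neg_neg] at B'
  rw [show -(-p - 1) - 1 = p by ring, show -(-q - 1) - 1 = q by ring] at B'
  refine ⟨fun x => h' (-x), B', ?_, ?_, ?_, -k - 1, by omega, by omega, ?_⟩
  · intro a ha ha'
    have := h1 (-a - 1) (by omega) (by omega)
    rw [show -a - 1 + 1 = -a by ring] at this
    simp only [neg_neg] at this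
    rw [show -(-a - 1) = a + 1 by ring] at this
    have e1 : h a ≠ h (a + 1) := fun e => by
      have := B₀.inj _ _ (by omega) (by omega) (by omega) (by omega) e; omega
    have e2 : h' (-a) ≠ h' (-a - 1) := fun e => by
      have := B.inj _ _ (by omega) (by omega) (by omega) (by omega) e; omega
    simp only [show -(a + 1) = -a - 1 by ring]
    omega
  · intro e1 e2
    have := h2 (by omega) (by omega)
    beta_reduce at this ⊢
    rw [show -(-j - 1) = j + 1 by ring, show -(-i + 1) = i - 1 by ring] at this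
    have e3 : h (i - 1) ≠ h (j + 1) := fun e => by
      have := B₀.inj _ _ (by omega) (by omega) (by omega) (by omega) e; omega
    have e4 : h' (-j - 1) ≠ h' (-i + 1) := fun e => by
      have := B.inj _ _ (by omega) (by omega) (by omega) (by omega) e; omega
    simp only [show -(j + 1) = -j - 1 by ring, show -(i - 1) = -i + 1 by ring]
    omega
  · have e := cost_rev h' (-j) (-i) (-q - 1) (-p - 1)
    simp only [neg_neg] at e
    rw [show -(-p - 1) - 1 = p by ring, show -(-q - 1) - 1 = q by ring] at e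
    rw [e]
    rwa [cost_rev] at h3
  · rcases h4 with H | H
    · refine Or.inr fun x y a b c d => H (-y) (-x) (by omega) (by omega) (by omega) (by omega)
    · refine Or.inl fun x y a b c d => H (-y) (-x) (by omega) (by omega) (by omega) (by omega)

end Pool.Agent.Lib.MP_868dd5_lc
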