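import Pool.Agent.Lib.MP_868dd5_lc.Parity

/-!
# The parity claims used in the rearrangement
-/

namespace Pool.Agent.Lib.MP_868dd5_lc

open Finset

variable {h : ℤ → ℤ} {i j p q : ℤ}

theorem Blk.ne (B : Blk h i j p q) {x y : ℤ} (h1 : p ≤ x) (h2 : x ≤ q + 1) (h3 : p ≤ y)
    (h4 : y ≤ q + 1) (h5 : x ≠ y) : h x ≠ h y := fun e => h5 (B.inj x y h1 h2 h3 h4 e)

/-- The segments of `[i, b]` between the ends of an arc that starts at or after `b`. -/
theorem lemE (B : Blk h i j p q) (hp : p = i - 1) {b a : ℤ} (hib : i ≤ b) (hba : b ≤ a)
    (haq : a ≤ q) (hl : ¬ btw h a (i - 1)) :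
    (num i b (btw h a) + ind ((b - a) % 2 = 0 ∧ btw h a b)) % 2 = 0 := by
  have h1 := num_parity a i (btw h a) b hib fun c hc hc' hca =>
    B.nc a c (by omega) haq (by omega) (by omega) (by omega) (by omega)
  rw [ind_neg (P := (i - 1 - a) % 2 = 0 ∧ btw h a i)] at h1
  · omega
  · rintro ⟨h2, h3⟩
    apply hl
    have := B.nc a (i - 1) (by omega) haq (by omega) (by omega) (by omega) (by omega)
    rw [show i - 1 + 1 = i by ring] at this
    exact this.2 h3

theorem num_true {u v : ℤ} {Y : ℤ → Prop} (huv : u ≤ v + 1)
    (hY : ∀ c, u ≤ c → c ≤ v → Y c) : (num u v Y : ℤ) = v + 1 - u := by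
  classical
  have e : (Icc u v).filter Y = Icc u v :=
    filter_true_of_mem (fun c hc => hY c (mem_Icc.1 hc).1 (mem_Icc.1 hc).2)
  have e' : num u v Y = ((Icc u v).filter Y).card := by unfold num; congr
  rw [e', e, Int.card_Icc]
  omega

theorem num_eq_one {u v b : ℤ} (h1 : u ≤ b) (h2 : b ≤ v) : num u v (fun c => c = b) = 1 := by
  unfold num
  rw [card_eq_one]
  refine ⟨b, ?_⟩
  ext c
  simp only [mem_filter, mem_Icc, mem_singleton]
  constructor
  · exact fun hh => hh.2
  · rintro rfl; exact ⟨⟨h1, h2⟩, rfl⟩

variable (B : Blk h i j p q) {b t : ℤ}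
include B

/-- After the lowest segment `b` the number of segments of `[i, b]` below is odd. -/
theorem bel_odd (hp : p = i - 1) (hl : ∀ z, i ≤ z → z ≤ j → h (i - 1) < h z) (hib : i ≤ b)
    (hb : ∀ z, i ≤ z → z ≤ j → h b ≤ h z) (x : ℤ) (hx : b + 1 ≤ x) (hxj : x ≤ j) :
    bel h i b x % 2 = 1 := by
  have hq := B.hq
  induction x, hx using Int.leInduction with
  | base =>
    have h1 := lemE B hp hib le_rfl (by omega) (a := b) (fun hh => by
      have h2 := hl b hib (by omega)
      have h3 := hl (b + 1) (by omega) (by omega)
      unfold btw at hh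
      omega)
    rw [ind_neg (fun hh => by have := hh.2; unfold btw at this; omega)] at h1
    unfold bel
    rw [num_add (W := fun c => h c < h (b + 1)) (Y := fun c => c = b) (Z := btw h b),
      num_eq_one hib le_rfl]
    · omega
    · intro c hc hc'
      have h2 := hb c hc (by omega)
      have h3 := hb (b + 1) (by omega) hxj
      have h4 := B.ne (x := b) (y := b + 1) (by omega) (by omega) (by omega) (by omega) (by omega)
      have h5 : c ≠ b → h c ≠ h b := fun hh => B.ne (by omega) (by omega) (by omega) (by omega) hh
      unfold btw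
      constructor
      · intro h6
        by_cases hcb : c = b
        · exact Or.inl hcb
        · have := h5 hcb
          right; omega
      · rintro (rfl | h6) <;> omega
    · rintro c hc hc' ⟨rfl, h2⟩
      unfold btw at h2
      omega
  | succ x hx ih =>
    have ih' := ih (by omega)
    have h1 := lemE B hp hib (a := x) (by omega) (by omega) (fun hh => by
      have h2 := hl x (by omega) (by omega)
      have h3 := hl (x + 1) (by omega) (by omega)
      unfold btw at hh
      omega)
    rw [ind_neg (fun hh => by
      have h2 := hb x (by omega) (by omega)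
      have h3 := hb (x + 1) (by omega) (by omega)
      have := hh.2
      unfold btw at this
      omega)] at h1
    have h2 := bel_step (h := h) (u := i) (v := b) (a := x)
      (fun c hc hc' => B.ne (by omega) (by omega) (by omega) (by omega) (by omega))
      (fun c hc hc' => B.ne (by omega) (by omega) (by omega) (by omega) (by omega))
    omega

theorem claim1 (hp : p = i - 1) (hl : ∀ z, i ≤ z → z ≤ j → h (i - 1) < h z) (hib : i ≤ b)
    (hb : ∀ z, i ≤ z → z ≤ j → h b ≤ h z) (hbt : b < t) (htj : t ≤ j)
    (ht : ∀ z, i ≤ z → z ≤ j → h z ≤ h t) : (b - i) % 2 = 0 := by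
  have hq := B.hq
  have h1 := bel_odd B hp hl hib hb t (by omega) htj
  have h2 := num_true (u := i) (v := b) (Y := fun c => h c < h t) (by omega) (fun c hc hc' => by
    have h3 := ht c hc (by omega)
    have h4 := B.ne (x := c) (y := t) (by omega) (by omega) (by omega) (by omega) (by omega)
    omega)
  unfold bel at h1
  omega

/-- If both rays go down on the same side then the ray of `j` is the outer one. -/
theorem claim3 (hp : p = i - 1) (hl : ∀ z, i ≤ z → z ≤ j → h (i - 1) < h z) (hib : i ≤ b)
    (hb : ∀ z, i ≤ z → z ≤ j → h b ≤ h z) (hbt : b < t) (htj : t ≤ j)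
    (ht : ∀ z, i ≤ z → z ≤ j → h z ≤ h t) (hq : q = j)
    (hr : ∀ z, i ≤ z → z ≤ j → h (j + 1) < h z) (hs : (i - 1 - j) % 2 = 0) :
    h (j + 1) < h (i - 1) := by
  by_contra hcon
  have hne := B.ne (x := i - 1) (y := j + 1) (by omega) (by omega) (by omega) (by omega)
    (by omega)
  have h0 := claim1 B hp hl hib hb hbt htj ht
  have h1 := bel_odd B hp hl hib hb j (by omega) le_rfl
  have h2 := lemE B hp hib (a := j) (by omega) (by omega) (fun hh => by
      have h2 := hl j (by omega) (by omega)
      unfold btw at hh
      omega)
  rw [ind_neg (fun hh => by have := hh.1; omega)] at h2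
  have h3 : num i b (btw h j) = bel h i b j := num_congr fun c hc hc' => by
    have h4 := hr c hc (by omega)
    have h5 := hr j (by omega) (by omega)
    unfold btw
    omega
  omega

/-- Left ray down, right ray up. -/
theorem claimF (hp : p = i - 1) (hl : ∀ z, i ≤ z → z ≤ j → h (i - 1) < h z) (hib : i ≤ b)
    (hb : ∀ z, i ≤ z → z ≤ j → h b ≤ h z) (hbj : b < j) (hq : q = j)
    (hr : ∀ z, i ≤ z → z ≤ j → h z < h (j + 1)) : (b - i) % 2 = 0 := by
  have h1 := bel_odd B hp hl hib hb j (by omega) le_rfl
  have h5 := hr j (by omega) (by omega)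
  have h6 := hl j (by omega) (by omega)
  have h2 := lemE B hp hib (a := j) (by omega) (by omega) (fun hh => by
      unfold btw at hh
      omega)
  rw [ind_neg (fun hh => by
    have h7 := hb j (by omega) le_rfl
    have := hh.2; unfold btw at this; omega)] at h2
  have h3 := num_true (u := i) (v := b) (Y := fun _ => True) (by omega) (fun c hc hc' => trivial)
  have h4 : num i b (fun _ => True) = bel h i b j + num i b (btw h j) := by
    unfold bel
    refine num_add ?_ ?_
    · intro c hc hc'
      have h8 := hr c hc (by omega)
      have h9 := B.ne (x := c) (y := j) (by omega) (by omega) (by omega) (by omega) (by omega)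
      unfold btw
      constructor
      · intro _; omega
      · intro _; trivial
    · intro c hc hc'
      unfold btw
      omega
  omega

/-- Left ray down, right ray up, the highest segment before the lowest one. -/
theorem claim2 (hp : p = i - 1) (hl : ∀ z, i ≤ z → z ≤ j → h (i - 1) < h z) (hit : i < t)
    (htb : t < b) (hb : ∀ z, i ≤ z → z ≤ j → h b ≤ h z)
    (ht : ∀ z, i ≤ z → z ≤ j → h z ≤ h t) (hbj : b < j) (hq : q = j)
    (hr : ∀ z, i ≤ z → z ≤ j → h z < h (j + 1)) : (b - t) % 2 = 0 := by
  have h0 := claimF B hp hl (by omega) hb hbj hq hr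
  have key : ∀ s, i - 1 ≤ s → s < t → ¬ ((t - 1 - s) % 2 = 0 ∧ btw h s t) →
      ¬ ((b - s) % 2 = 0 ∧ btw h s b) → num t b (btw h s) % 2 = 0 := by
    intro s hs1 hs2 h3 h4
    have h1 := num_parity s t (btw h s) b (by omega) fun c hc hc' hca =>
      B.nc s c (by omega) (by omega) (by omega) (by omega) (by omega) (by omega)
    rw [ind_neg h3, ind_neg h4] at h1
    omega
  have ht0 : ∀ s, i ≤ s → s < t → ¬ btw h s t := by
    intro s hs1 hs2 hh
    have h1 := ht s hs1 (by omega)
    have h2 := ht (s + 1) (by omega) (by omega)
    unfold btw at hh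
    omega
  have hb0 : ∀ s, i ≤ s → s < t → ¬ btw h s b := by
    intro s hs1 hs2 hh
    have h1 := hb s hs1 (by omega)
    have h2 := hb (s + 1) (by omega) (by omega)
    unfold btw at hh
    omega
  -- the segment `t - 1`
  have h1 := key (t - 1) (by omega) (by omega) (fun hh => ht0 _ (by omega) (by omega) hh.2)
    (fun hh => hb0 _ (by omega) (by omega) hh.2)
  have h2 : num t b (fun _ => True) = bel h t b (t - 1) + num t b (fun c => ¬ (h c < h (t - 1)))
      := by
    unfold bel
    refine num_add ?_ ?_
    · intro c hc hc'
      simp only [true_iff]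
      tauto
    · intro c hc hc'; tauto
  have h3 : num t b (fun c => ¬ (h c < h (t - 1))) = num t b (fun c => c = t) +
      num t b (btw h (t - 1)) := by
    refine num_add ?_ ?_
    · intro c hc hc'
      have e1 := ht c (by omega) (by omega)
      have e2 := ht (t - 1) (by omega) (by omega)
      have e3 := B.ne (x := c) (y := t - 1) (by omega) (by omega) (by omega) (by omega) (by omega)
      have e4 : c ≠ t → h c ≠ h t := fun hh => B.ne (by omega) (by omega) (by omega) (by omega) hh
      unfold btw
      rw [show t - 1 + 1 = t by ring]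
      constructor
      · intro h6
        by_cases hct : c = t
        · exact Or.inl hct
        · have := e4 hct
          right; omega
      · rintro (rfl | h6) <;> omega
    · rintro c hc hc' ⟨rfl, h4⟩
      unfold btw at h4
      rw [show c - 1 + 1 = c by ring] at h4
      omega
  rw [num_eq_one le_rfl (by omega)] at h3
  have h4 := num_true (u := t) (v := b) (Y := fun _ => True) (by omega) (fun c hc hc' => trivial)
  -- down to `i`
  have h5 : ∀ n : ℕ, ∀ x, x = t - 1 - n → i ≤ x →
      (bel h t b x + bel h t b (t - 1)) % 2 = 0 := by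
    intro n
    induction n with
    | zero =>
      intro x hx _
      obtain rfl : x = t - 1 := by omega
      omega
    | succ n ih =>
      intro x hx hix
      have e1 := ih (x + 1) (by omega) (by omega)
      have e2 := bel_step (h := h) (u := t) (v := b) (a := x)
        (fun c hc hc' => B.ne (by omega) (by omega) (by omega) (by omega) (by omega))
        (fun c hc hc' => B.ne (by omega) (by omega) (by omega) (by omega) (by omega))
      have e3 := key x (by omega) (by omega) (fun hh => ht0 _ hix (by omega) hh.2)
        (fun hh => hb0 _ hix (by omega) hh.2)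
      omega
  have h6 := h5 (t - 1 - i).toNat i (by omega) le_rfl
  have h7 : num t b (btw h (i - 1)) = bel h t b i := num_congr fun c hc hc' => by
    have e1 := hl c (by omega) (by omega)
    have e2 := hl i (by omega) (by omega)
    unfold btw
    rw [show i - 1 + 1 = i by ring]
    omega
  have h8 := key (i - 1) le_rfl (by omega) (fun hh => by
      have e1 := ht i le_rfl (by omega)
      have e2 := hl t (by omega) (by omega)
      have e3 := hh.2
      unfold btw at e3
      rw [show i - 1 + 1 = i by ring] at e3
      omega) (fun hh => by have := hh.1; omega)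
  omega

end Pool.Agent.Lib.MP_868dd5_lc
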