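import Mathlib

/-!
# Folded states of a paper strip

The strip has the segments `0, ..., n` and the creases `1, ..., n`; the crease `i` joins the
segments `i - 1` and `i`. A folded state is given by the list of its segments from bottom to top.
The creases with an even number lie at one end of the stack, those with an odd number at the
other end.
-/

namespace Pool.Agent.Lib.MP_868dd5_lc

open Finset

/-- The height (counted from the bottom) of the lower one of the segments `i - 1` and `i`. -/
def lo (L : List ℕ) (i : ℕ) : ℕ := min (L.idxOf (i - 1)) (L.idxOf i)

/-- The height of the upper one of the segments `i - 1` and `i`. -/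
def hi (L : List ℕ) (i : ℕ) : ℕ := max (L.idxOf (i - 1)) (L.idxOf i)

/-- `L` lists, from bottom to top, a folded state to unit length of the strip with `n` creases:
every segment `0, ..., n` occurs exactly once, and two different crease pairs at the same end are
nested or disjoint as intervals of the stacking order. -/
structure FoldedState (n : ℕ) (L : List ℕ) : Prop where
  perm : L.Perm (List.range (n + 1))
  nested : ∀ i j, 1 ≤ i → i ≤ n → 1 ≤ j → j ≤ n → i ≠ j → i % 2 = j % 2 →
    hi L i < lo L j ∨ hi L j < lo L i ∨ (lo L i < lo L j ∧ hi L j < hi L i) ∨
      (lo L j < lo L i ∧ hi L i < hi L j)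

/-- The folded state `L` is consistent with the MV string `s` (`true` is `M`, `false` is `V`, and
the crease `i` has the symbol `s[i - 1]`): the segment `i` lies above the segment `i - 1` exactly
when the crease `i` is `V` and the segment `i - 1` is face up (`i - 1` is even), or the crease
`i` is `M` and the segment `i - 1` is face down (`i - 1` is odd). -/
def Consistent (s : List Bool) (L : List ℕ) : Prop :=
  ∀ i, 1 ≤ i → i ≤ s.length → (L.idxOf (i - 1) < L.idxOf i ↔
    (s[i - 1]? = some false ∧ (i - 1) % 2 = 0) ∨ (s[i - 1]? = some true ∧ (i - 1) % 2 = 1))

/-- The crease width of the crease `i`: the number of segments strictly between the segments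
`i - 1` and `i` in the stacking order. -/
def creaseWidth (n : ℕ) (L : List ℕ) (i : ℕ) : ℕ :=
  ((range (n + 1)).filter fun z => lo L i < L.idxOf z ∧ L.idxOf z < hi L i).card

/-- The total crease width: the sum of the crease widths over the creases `1, ..., n`. -/
def totalWidth (n : ℕ) (L : List ℕ) : ℕ := ∑ i ∈ Icc 1 n, creaseWidth n L i

/-- The encoding of a list of numbers as a string of bits: every number `m` is written in unary
as `m` times `true`, followed by `false`. -/
def encode (L : List ℕ) : List Bool := L.flatMap fun m => List.replicate m true ++ [false]

end Pool.Agent.Lib.MP_868dd5_lc
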