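import Pool.Agent.Lib.MP_868dd5_lc.Claims

/-!
# The first rearrangement: retraction to the lowest segment
-/

namespace Pool.Agent.Lib.MP_868dd5_lc

open Finset

variable {h : ℤ → ℤ} {i j p q : ℤ}

theorem exists_bound (h : ℤ → ℤ) (u v : ℤ) : ∃ K, 0 < K ∧ ∀ x, u ≤ x → x ≤ v →
    -K < h x ∧ h x < K := by
  refine ⟨1 + ∑ x ∈ Icc u v, |h x|, ?_, ?_⟩
  · have : 0 ≤ ∑ x ∈ Icc u v, |h x| := sum_nonneg fun x _ => abs_nonneg _
    omega
  · intro x hx hx'
    have h1 := single_le_sum (f := fun x => |h x|) (fun x _ => abs_nonneg (h x))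
      (mem_Icc.2 ⟨hx, hx'⟩)
    have h2 := neg_abs_le (h x)
    have h3 := le_abs_self (h x)
    beta_reduce at h1
    omega

/-- A path that goes from below `z` to above `z` (or conversely) has an arc around `z`. -/
theorem exists_btw {z u v : ℤ} (huv : u < v)
    (hz : (h u < h z ∧ h z < h v) ∨ (h v < h z ∧ h z < h u))
    (hne : ∀ x, u ≤ x → x ≤ v → h x ≠ h z) : ∃ a, u ≤ a ∧ a < v ∧ btw h a z := by
  have huv' : u + 1 ≤ v := huv
  induction v, huv' using Int.leInduction with
  | base => exact ⟨u, le_rfl, by omega, hz⟩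
  | succ v hv ih =>
    by_cases hh : (h u < h z ∧ h z < h v) ∨ (h v < h z ∧ h z < h u)
    · obtain ⟨a, h1, h2, h3⟩ := ih (by omega) hh (fun x hx hx' => hne x hx (by omega))
      exact ⟨a, h1, by omega, h3⟩
    · refine ⟨v, by omega, by omega, ?_⟩
      have h1 := hne v (by omega) (by omega)
      have h2 := hne u (by omega) (by omega)
      unfold btw
      omega

/-- Comparison of the number of arcs around a layer. -/
theorem card_le_aux {p q b : ℤ} {Y Y' : ℤ → Prop} [DecidablePred Y] [DecidablePred Y']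
    (h1 : ∀ a, p ≤ a → a ≤ q → a < b → Y' a → Y a)
    (h2 : ((Icc p q).filter fun a => Y' a ∧ b ≤ a).card ≤
      ((Icc p q).filter fun a => Y a ∧ b ≤ a).card) :
    ((Icc p q).filter Y').card ≤ ((Icc p q).filter Y).card := by
  have e : ∀ (Z : ℤ → Prop) [DecidablePred Z], ((Icc p q).filter Z).card =
      ((Icc p q).filter fun a => Z a ∧ a < b).card +
        ((Icc p q).filter fun a => Z a ∧ b ≤ a).card := by
    intro Z _
    rw [← card_union_of_disjoint]
    · congr 1
      ext a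
      simp only [mem_filter, mem_union]
      constructor
      · rintro ⟨h3, h4⟩
        rcases lt_or_ge a b with h5 | h5
        · exact Or.inl ⟨h3, h4, h5⟩
        · exact Or.inr ⟨h3, h4, h5⟩
      · rintro (⟨h3, h4, -⟩ | ⟨h3, h4, -⟩) <;> exact ⟨h3, h4⟩
    · rw [disjoint_left]
      intro a ha ha'
      rw [mem_filter] at ha ha'
      exact absurd ha.2.2 (not_lt.2 ha'.2.2)
  rw [e Y', e Y]
  refine add_le_add (card_le_card ?_) h2
  intro a ha
  rw [mem_filter, mem_Icc] at *
  exact ⟨ha.1, h1 a ha.1.1 ha.1.2 ha.2.2 ha.2.1, ha.2.2⟩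

/-- The rearranged heights. -/
noncomputable def hA (h : ℤ → ℤ) (i j b K : ℤ) (x : ℤ) : ℤ :=
  if x < i then h x - 6 * K else if x < b then h x - 2 * K else if x = b then h x - 4 * K
    else if x ≤ j then h x else if h x < h b then h x - 6 * K else h x

/-- The types of the arcs. -/
theorem typeA (B : Blk h i j p q) {b K : ℤ} (hib : i < b) (hbj : b < j)
    (hb : ∀ z, i ≤ z → z ≤ j → h b ≤ h z)
    (hl : p = i - 1 → ∀ z, i ≤ z → z ≤ j → h (i - 1) < h z) (a : ℤ) (ha : p ≤ a) (ha' : a ≤ q) :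
    (a = i - 1 ∧ p = i - 1 ∧ hA h i j b K a = h a - 6 * K ∧
      hA h i j b K (a + 1) = h (a + 1) - 2 * K ∧ h b < h (a + 1) ∧ h a < h b) ∨
    (i ≤ a ∧ a + 1 < b ∧ hA h i j b K a = h a - 2 * K ∧
      hA h i j b K (a + 1) = h (a + 1) - 2 * K ∧ h b < h a ∧ h b < h (a + 1)) ∨
    (a + 1 = b ∧ hA h i j b K a = h a - 2 * K ∧
      hA h i j b K (a + 1) = h (a + 1) - 4 * K ∧ h b < h a ∧ h (a + 1) = h b) ∨
    (a = b ∧ hA h i j b K a = h a - 4 * K ∧
      hA h i j b K (a + 1) = h (a + 1) ∧ h a = h b ∧ h b < h (a + 1)) ∨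
    (b < a ∧ a < j ∧ hA h i j b K a = h a ∧
      hA h i j b K (a + 1) = h (a + 1) ∧ h b < h a ∧ h b < h (a + 1)) ∨
    (a = j ∧ q = j ∧ hA h i j b K a = h a ∧
      hA h i j b K (a + 1) = h (a + 1) - 6 * K ∧ h b < h a ∧ h (a + 1) < h b ∧
      ∀ z, i ≤ z → z ≤ j → h (j + 1) < h z) ∨
    (a = j ∧ q = j ∧ hA h i j b K a = h a ∧
      hA h i j b K (a + 1) = h (a + 1) ∧ h b < h a ∧ h a < h (a + 1) ∧
      ∀ z, i ≤ z → z ≤ j → h z < h (j + 1)) := by
  have hp := B.hp
  have hq := B.hq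
  have hne : ∀ z, i ≤ z → z ≤ j → z ≠ b → h b < h z := by
    intro z h1 h2 h3
    have h4 := hb z h1 h2
    have h5 := B.ne (x := b) (y := z) (by omega) (by omega) (by omega) (by omega) (Ne.symm h3)
    omega
  rcases lt_or_ge a i with h1 | h1
  · obtain rfl : a = i - 1 := by omega
    have hp' : p = i - 1 := by omega
    refine Or.inl ⟨rfl, hp', ?_, ?_, ?_, hl hp' b (by omega) (by omega)⟩
    · unfold hA; rw [if_pos (by omega)]
    · unfold hA; rw [if_neg (by omega), if_pos (by omega)]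
    · exact hne _ (by omega) (by omega) (by omega)
  rcases lt_trichotomy (a + 1) b with h2 | h2 | h2
  · refine Or.inr (Or.inl ⟨h1, h2, ?_, ?_, ?_, ?_⟩)
    · unfold hA; rw [if_neg (by omega), if_pos (by omega)]
    · unfold hA; rw [if_neg (by omega), if_pos (by omega)]
    · exact hne _ (by omega) (by omega) (by omega)
    · exact hne _ (by omega) (by omega) (by omega)
  · refine Or.inr (Or.inr (Or.inl ⟨h2, ?_, ?_, ?_, ?_⟩))
    · unfold hA; rw [if_neg (by omega), if_pos (by omega)]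
    · unfold hA; rw [if_neg (by omega), if_neg (by omega), if_pos (by omega)]
    · exact hne _ (by omega) (by omega) (by omega)
    · rw [h2]
  rcases lt_trichotomy a b with h3 | h3 | h3
  · omega
  · refine Or.inr (Or.inr (Or.inr (Or.inl ⟨h3, ?_, ?_, ?_, ?_⟩)))
    · unfold hA; rw [if_neg (by omega), if_neg (by omega), if_pos (by omega)]
    · unfold hA
      rw [if_neg (by omega), if_neg (by omega), if_neg (by omega), if_pos (by omega)]
    · rw [h3]
    · exact hne _ (by omega) (by omega) (by omega)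
  rcases lt_or_ge a j with h4 | h4
  · refine Or.inr (Or.inr (Or.inr (Or.inr (Or.inl ⟨h3, h4, ?_, ?_, ?_, ?_⟩))))
    · unfold hA
      rw [if_neg (by omega), if_neg (by omega), if_neg (by omega), if_pos (by omega)]
    · unfold hA
      rw [if_neg (by omega), if_neg (by omega), if_neg (by omega), if_pos (by omega)]
    · exact hne _ (by omega) (by omega) (by omega)
    · exact hne _ (by omega) (by omega) (by omega)
  obtain rfl : a = j := by omega
  have hq' : q = a := by omega
  rcases B.right hq' with H | H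
  · refine Or.inr (Or.inr (Or.inr (Or.inr (Or.inr (Or.inl ⟨rfl, hq', ?_, ?_, ?_, ?_, H⟩)))))
    · unfold hA
      rw [if_neg (by omega), if_neg (by omega), if_neg (by omega), if_pos (by omega)]
    · have := H b (by omega) (by omega)
      unfold hA
      rw [if_neg (by omega), if_neg (by omega), if_neg (by omega), if_neg (by omega), if_pos this]
    · exact hne _ (by omega) (by omega) (by omega)
    · exact H b (by omega) (by omega)
  · refine Or.inr (Or.inr (Or.inr (Or.inr (Or.inr (Or.inr ⟨rfl, hq', ?_, ?_, ?_, ?_, H⟩)))))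
    · unfold hA
      rw [if_neg (by omega), if_neg (by omega), if_neg (by omega), if_pos (by omega)]
    · have := H b (by omega) (by omega)
      unfold hA
      rw [if_neg (by omega), if_neg (by omega), if_neg (by omega), if_neg (by omega),
        if_neg (by omega)]
    · exact hne _ (by omega) (by omega) (by omega)
    · exact H _ (by omega) (by omega)

theorem ncA (B : Blk h i j p q) {b t K : ℤ} (hib : i < b) (hbt : b < t) (htj : t ≤ j)
    (hb : ∀ z, i ≤ z → z ≤ j → h b ≤ h z) (ht : ∀ z, i ≤ z → z ≤ j → h z ≤ h t)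
    (hl : p = i - 1 → ∀ z, i ≤ z → z ≤ j → h (i - 1) < h z)
    (hK : ∀ x, p ≤ x → x ≤ q + 1 → -K < h x ∧ h x < K) (a c : ℤ)
    (ha : p ≤ a) (ha' : a ≤ q) (hc : p ≤ c) (hc' : c ≤ q) (hac : a ≠ c) (hpar : (a - c) % 2 = 0) :
    btw (hA h i j b K) a c ↔ btw (hA h i j b K) a (c + 1) := by
  have hp := B.hp
  have hq := B.hq
  have ta := typeA B (K := K) hib (by omega) hb hl a ha ha'
  have tc := typeA B (K := K) hib (by omega) hb hl c hc hc'
  have N := B.nc a c ha ha' hc hc' hac hpar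
  have c1 : p = i - 1 → (b - i) % 2 = 0 := fun e =>
    claim1 B e (hl e) (by omega) hb hbt htj ht
  have c3 : p = i - 1 → q = j → (∀ z, i ≤ z → z ≤ j → h (j + 1) < h z) →
      (i - 1 - j) % 2 = 0 → h (j + 1) < h (i - 1) := fun e e' hr hs =>
    claim3 B e (hl e) (by omega) hb hbt htj ht e' hr hs
  have ka := hK a ha (by omega)
  have ka' := hK (a + 1) (by omega) (by omega)
  have kc := hK c hc (by omega)
  have kc' := hK (c + 1) (by omega) (by omega)
  unfold btw at N ⊢
  rcases ta with ⟨rfl, ea, a1, a2, a3, a4⟩ | ⟨a0, ea, a1, a2, a3, a4⟩ | ⟨ea, a1, a2, a3, a4⟩ |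
    ⟨ea, a1, a2, a3, a4⟩ | ⟨a0, ea, a1, a2, a3, a4⟩ | ⟨rfl, ea, a1, a2, a3, a4, H⟩ |
    ⟨rfl, ea, a1, a2, a3, a4, H⟩
  · rcases tc with ⟨d0, d1, d2, d3, d4, d5⟩ | ⟨d0, d1, d2, d3, d4, d5⟩ | ⟨d1, d2, d3, d4, d5⟩ |
      ⟨d1, d2, d3, d4, d5⟩ | ⟨d0, d1, d2, d3, d4, d5⟩ | ⟨rfl, d1, d2, d3, d4, d5, H⟩ |
      ⟨rfl, d1, d2, d3, d4, d5, H⟩
    · omega
    · omega
    · omega
    · have := c1 ea
      omega
    · omega
    · have := c3 ea d1 H hpar
      omega
    · have := H (i - 1 + 1) (by omega) (by omega)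
      omega
  · rcases tc with ⟨rfl, d1, d2, d3, d4, d5⟩ | ⟨d0, d1, d2, d3, d4, d5⟩ | ⟨d1, d2, d3, d4, d5⟩ |
      ⟨d1, d2, d3, d4, d5⟩ | ⟨d0, d1, d2, d3, d4, d5⟩ | ⟨rfl, d1, d2, d3, d4, d5, H⟩ |
      ⟨rfl, d1, d2, d3, d4, d5, H⟩
    · omega
    · omega
    · omega
    · omega
    · omega
    · have := H a (by omega) (by omega)
      have := H (a + 1) (by omega) (by omega)
      omega
    · have := H a (by omega) (by omega)
      have := H (a + 1) (by omega) (by omega)
      omega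
  · rcases tc with ⟨rfl, d1, d2, d3, d4, d5⟩ | ⟨d0, d1, d2, d3, d4, d5⟩ | ⟨d1, d2, d3, d4, d5⟩ |
      ⟨d1, d2, d3, d4, d5⟩ | ⟨d0, d1, d2, d3, d4, d5⟩ | ⟨rfl, d1, d2, d3, d4, d5, H⟩ |
      ⟨rfl, d1, d2, d3, d4, d5, H⟩
    · omega
    · omega
    · omega
    · omega
    · omega
    · have := H a (by omega) (by omega)
      have := H (a + 1) (by omega) (by omega)
      omega
    · have := H a (by omega) (by omega)
      have := H (a + 1) (by omega) (by omega)
      omega
  · rcases tc with ⟨rfl, d1, d2, d3, d4, d5⟩ | ⟨d0, d1, d2, d3, d4, d5⟩ | ⟨d1, d2, d3, d4, d5⟩ |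
      ⟨d1, d2, d3, d4, d5⟩ | ⟨d0, d1, d2, d3, d4, d5⟩ | ⟨rfl, d1, d2, d3, d4, d5, H⟩ |
      ⟨rfl, d1, d2, d3, d4, d5, H⟩
    · have := c1 d1
      omega
    · omega
    · omega
    · omega
    · omega
    · have := H a (by omega) (by omega)
      have := H (a + 1) (by omega) (by omega)
      omega
    · have := H a (by omega) (by omega)
      have := H (a + 1) (by omega) (by omega)
      omega
  · rcases tc with ⟨rfl, d1, d2, d3, d4, d5⟩ | ⟨d0, d1, d2, d3, d4, d5⟩ | ⟨d1, d2, d3, d4, d5⟩ |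
      ⟨d1, d2, d3, d4, d5⟩ | ⟨d0, d1, d2, d3, d4, d5⟩ | ⟨rfl, d1, d2, d3, d4, d5, H⟩ |
      ⟨rfl, d1, d2, d3, d4, d5, H⟩
    · omega
    · omega
    · omega
    · omega
    · omega
    · have := H a (by omega) (by omega)
      have := H (a + 1) (by omega) (by omega)
      omega
    · have := H a (by omega) (by omega)
      have := H (a + 1) (by omega) (by omega)
      omega
  · rcases tc with ⟨rfl, d1, d2, d3, d4, d5⟩ | ⟨d0, d1, d2, d3, d4, d5⟩ | ⟨d1, d2, d3, d4, d5⟩ |
      ⟨d1, d2, d3, d4, d5⟩ | ⟨d0, d1, d2, d3, d4, d5⟩ | ⟨d0, d1, d2, d3, d4, d5, H'⟩ |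
      ⟨d0, d1, d2, d3, d4, d5, H'⟩
    · have := c3 d1 ea H (by omega)
      omega
    · have := H c (by omega) (by omega)
      have := H (c + 1) (by omega) (by omega)
      omega
    · have := H c (by omega) (by omega)
      have := H (c + 1) (by omega) (by omega)
      omega
    · have := H c (by omega) (by omega)
      have := H (c + 1) (by omega) (by omega)
      omega
    · have := H c (by omega) (by omega)
      have := H (c + 1) (by omega) (by omega)
      omega
    · omega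
    · omega
  · rcases tc with ⟨rfl, d1, d2, d3, d4, d5⟩ | ⟨d0, d1, d2, d3, d4, d5⟩ | ⟨d1, d2, d3, d4, d5⟩ |
      ⟨d1, d2, d3, d4, d5⟩ | ⟨d0, d1, d2, d3, d4, d5⟩ | ⟨d0, d1, d2, d3, d4, d5, H'⟩ |
      ⟨d0, d1, d2, d3, d4, d5, H'⟩
    · have := H (i - 1 + 1) (by omega) (by omega)
      omega
    · have := H c (by omega) (by omega)
      have := H (c + 1) (by omega) (by omega)
      omega
    · have := H c (by omega) (by omega)
      have := H (c + 1) (by omega) (by omega)
      omega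
    · have := H c (by omega) (by omega)
      have := H (c + 1) (by omega) (by omega)
      omega
    · have := H c (by omega) (by omega)
      have := H (c + 1) (by omega) (by omega)
      omega
    · omega
    · omega

end Pool.Agent.Lib.MP_868dd5_lc
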