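import Pool.Agent.Lib.MP_868dd5_lc.MoveA

/-!
# The first rearrangement: conclusion
-/

namespace Pool.Agent.Lib.MP_868dd5_lc

open Finset

variable {h : ℤ → ℤ} {i j p q : ℤ}

theorem regA (B : Blk h i j p q) {b K : ℤ} (hib : i < b) (_hbj : b < j) (x : ℤ)
    (hx : p ≤ x) (hx' : x ≤ q + 1) :
    (x = i - 1 ∧ p = i - 1 ∧ hA h i j b K x = h x - 6 * K) ∨
    (i ≤ x ∧ x < b ∧ hA h i j b K x = h x - 2 * K) ∨
    (x = b ∧ hA h i j b K x = h x - 4 * K) ∨
    (b < x ∧ x ≤ j ∧ hA h i j b K x = h x) ∨
    (x = j + 1 ∧ q = j ∧ h x < h b ∧ hA h i j b K x = h x - 6 * K) ∨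
    (x = j + 1 ∧ q = j ∧ h b ≤ h x ∧ hA h i j b K x = h x) := by
  have hp := B.hp
  have hq := B.hq
  rcases lt_or_ge x i with h1 | h1
  · refine Or.inl ⟨by omega, by omega, ?_⟩
    unfold hA; rw [if_pos (by omega)]
  rcases lt_trichotomy x b with h2 | h2 | h2
  · refine Or.inr (Or.inl ⟨h1, h2, ?_⟩)
    unfold hA; rw [if_neg (by omega), if_pos (by omega)]
  · refine Or.inr (Or.inr (Or.inl ⟨h2, ?_⟩))
    unfold hA; rw [if_neg (by omega), if_neg (by omega), if_pos (by omega)]
  rcases lt_or_ge j x with h3 | h3
  · rcases lt_or_ge (h x) (h b) with h4 | h4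
    · refine Or.inr (Or.inr (Or.inr (Or.inr (Or.inl ⟨by omega, by omega, h4, ?_⟩))))
      unfold hA
      rw [if_neg (by omega), if_neg (by omega), if_neg (by omega), if_neg (by omega), if_pos h4]
    · refine Or.inr (Or.inr (Or.inr (Or.inr (Or.inr ⟨by omega, by omega, h4, ?_⟩))))
      unfold hA
      rw [if_neg (by omega), if_neg (by omega), if_neg (by omega), if_neg (by omega),
        if_neg (by omega)]
  · refine Or.inr (Or.inr (Or.inr (Or.inl ⟨h2, h3, ?_⟩)))
    unfold hA
    rw [if_neg (by omega), if_neg (by omega), if_neg (by omega), if_pos (by omega)]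

variable (B : Blk h i j p q) {b t K : ℤ} (hib : i < b) (hbt : b < t) (htj : t ≤ j)
  (hb : ∀ z, i ≤ z → z ≤ j → h b ≤ h z) (ht : ∀ z, i ≤ z → z ≤ j → h z ≤ h t)
  (hl : p = i - 1 → ∀ z, i ≤ z → z ≤ j → h (i - 1) < h z)
  (hK : ∀ x, p ≤ x → x ≤ q + 1 → -K < h x ∧ h x < K)

include B hib hbt htj hK in
theorem rightA_D (hq : q = j) (H : ∀ z, i ≤ z → z ≤ j → h (j + 1) < h z) :
    ∀ z, i ≤ z → z ≤ j → hA h i j b K (j + 1) < hA h i j b K z := by
  intro z hz hz'
  have hp := B.hp
  have r1 := regA B (K := K) hib (by omega) (j + 1) (by omega) (by omega)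
  have r2 := regA B (K := K) hib (by omega) z (by omega) (by omega)
  have k1 := hK (j + 1) (by omega) (by omega)
  have k2 := hK z (by omega) (by omega)
  have := H b (by omega) (by omega)
  omega

include B hib hbt htj hK in
theorem rightA_U (hq : q = j) (H : ∀ z, i ≤ z → z ≤ j → h z < h (j + 1)) :
    ∀ z, i ≤ z → z ≤ j → hA h i j b K z < hA h i j b K (j + 1) := by
  intro z hz hz'
  have hp := B.hp
  have r1 := regA B (K := K) hib (by omega) (j + 1) (by omega) (by omega)
  have r2 := regA B (K := K) hib (by omega) z (by omega) (by omega)
  have k1 := hK (j + 1) (by omega) (by omega)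
  have k2 := hK z (by omega) (by omega)
  have := H b (by omega) (by omega)
  have := H z (by omega) (by omega)
  omega

include B hib hbt htj hK hl in
theorem leftA (hp : p = i - 1) :
    ∀ z, i ≤ z → z ≤ j → hA h i j b K (i - 1) < hA h i j b K z := by
  intro z hz hz'
  have hq := B.hq
  have r1 := regA B (K := K) hib (by omega) (i - 1) (by omega) (by omega)
  have r2 := regA B (K := K) hib (by omega) z (by omega) (by omega)
  have k1 := hK (i - 1) (by omega) (by omega)
  have k2 := hK z (by omega) (by omega)
  have := hl hp z hz hz'
  omega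

include B hib hbt htj hb ht hl hK in
theorem blkA : Blk (hA h i j b K) i j p q where
  hp := B.hp
  hq := B.hq
  inj x y h1 h2 h3 h4 h5 := by
    by_contra hxy
    have hp := B.hp
    have hq := B.hq
    have hne := B.ne h1 h2 h3 h4 hxy
    have r1 := regA B (K := K) hib (by omega) x h1 h2
    have r2 := regA B (K := K) hib (by omega) y h3 h4
    have k1 := hK x h1 h2
    have k2 := hK y h3 h4
    omega
  nc a c h1 h2 h3 h4 h5 h6 := ncA B hib hbt htj hb ht hl hK a c h1 h2 h3 h4 h5 h6
  left hp := Or.inl (leftA B hib hbt htj hl hK hp)
  right hq := by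
    rcases B.right hq with H | H
    · exact Or.inl (rightA_D B hib hbt htj hK hq H)
    · exact Or.inr (rightA_U B hib hbt htj hK hq H)

include B hib hbt htj hb ht hl hK in
theorem cost_A : cost (hA h i j b K) i j p q ≤ cost h i j p q := by
  have hp := B.hp
  have hq := B.hq
  rw [cost_eq, cost_eq]
  refine sum_le_sum fun z hz => ?_
  rw [mem_Icc] at hz
  have kz := hK z (by omega) (by omega)
  have rz := regA B (K := K) hib (by omega) z (by omega) (by omega)
  have hbz := hb z hz.1 hz.2
  rcases lt_or_ge z b with hzb | hzb
  · have hz0 : h b < h z := by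
      have := B.ne (x := b) (y := z) (by omega) (by omega) (by omega) (by omega) (by omega)
      omega
    have hz1 : h z < h t := by
      have := B.ne (x := t) (y := z) (by omega) (by omega) (by omega) (by omega) (by omega)
      have := ht z hz.1 hz.2
      omega
    refine card_le_aux (b := b) ?_ ?_
    · intro a ha ha' hab h1
      have ta := typeA B (K := K) hib (by omega) hb hl a ha ha'
      have ka := hK a ha (by omega)
      have ka' := hK (a + 1) (by omega) (by omega)
      unfold btw at h1 ⊢
      omega
    · obtain ⟨a₁, h1, h2, h3⟩ := exists_btw (h := h) (z := z) (u := b) (v := t) hbt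
        (Or.inl ⟨hz0, hz1⟩)
        (fun x hx hx' => B.ne (by omega) (by omega) (by omega) (by omega) (by omega))
      by_cases hD : q = j ∧ h (j + 1) < h b
      · have HD : ∀ z, i ≤ z → z ≤ j → h (j + 1) < h z := by
          rcases B.right hD.1 with H | H
          · exact H
          · have := H b (by omega) (by omega); omega
        obtain ⟨a₂, h4, h5, h6⟩ := exists_btw (h := h) (z := z) (u := t) (v := j + 1) (by omega)
          (Or.inr ⟨HD z hz.1 hz.2, hz1⟩)
          (fun x hx hx' => B.ne (by omega) (by omega) (by omega) (by omega) (by omega))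
        calc _ ≤ ({b, j} : Finset ℤ).card := by
              refine card_le_card fun a ha => ?_
              rw [mem_filter, mem_Icc] at ha
              obtain ⟨⟨ha, ha'⟩, h7, h8⟩ := ha
              have ta := typeA B (K := K) hib (by omega) hb hl a ha ha'
              have ka := hK a ha (by omega)
              have ka' := hK (a + 1) (by omega) (by omega)
              rw [mem_insert, mem_singleton]
              unfold btw at h7
              omega
          _ = 2 := card_pair (by omega)
          _ = ({a₁, a₂} : Finset ℤ).card := (card_pair (by omega)).symm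
          _ ≤ _ := by
              refine card_le_card fun a ha => ?_
              rw [mem_insert, mem_singleton] at ha
              rw [mem_filter, mem_Icc]
              rcases ha with rfl | rfl
              · exact ⟨by omega, h3, by omega⟩
              · exact ⟨by omega, h6, by omega⟩
      · calc _ ≤ ({b} : Finset ℤ).card := by
              refine card_le_card fun a ha => ?_
              rw [mem_filter, mem_Icc] at ha
              obtain ⟨⟨ha, ha'⟩, h7, h8⟩ := ha
              have ta := typeA B (K := K) hib (by omega) hb hl a ha ha'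
              have ka := hK a ha (by omega)
              have ka' := hK (a + 1) (by omega) (by omega)
              have hD' : q = j → ¬ h (j + 1) < h b := fun e e' => hD ⟨e, e'⟩
              rw [mem_singleton]
              unfold btw at h7
              rcases ta with ta | ta | ta | ta | ta | ta | ta
              · omega
              · omega
              · omega
              · omega
              · omega
              · obtain ⟨rfl, e1, -, -, -, e2, -⟩ := ta
                exact absurd e2 (hD' e1)
              · omega
          _ = 1 := card_singleton _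
          _ = ({a₁} : Finset ℤ).card := (card_singleton _).symm
          _ ≤ _ := by
              refine card_le_card fun a ha => ?_
              rw [mem_singleton] at ha
              rw [mem_filter, mem_Icc]
              subst ha
              exact ⟨by omega, h3, by omega⟩
  · refine card_le_card fun a ha => ?_
    rw [mem_filter, mem_Icc] at *
    obtain ⟨⟨ha, ha'⟩, h7⟩ := ha
    refine ⟨⟨ha, ha'⟩, ?_⟩
    have ta := typeA B (K := K) hib (by omega) hb hl a ha ha'
    have ka := hK a ha (by omega)
    have ka' := hK (a + 1) (by omega) (by omega)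
    have kb := hK b (by omega) (by omega)
    have hbz' : z ≠ b → h b < h z := fun e => by
      have := B.ne (x := b) (y := z) (by omega) (by omega) (by omega) (by omega) (Ne.symm e)
      omega
    unfold btw at h7 ⊢
    rcases ta with ta | ta | ta | ta | ta | ta | ta
    · rcases rz with rz | rz | rz | rz | rz | rz
      · omega
      · omega
      · obtain ⟨rfl, rz⟩ := rz; omega
      · omega
      · omega
      · omega
    · rcases rz with rz | rz | rz | rz | rz | rz
      · omega
      · omega
      · obtain ⟨rfl, rz⟩ := rz; omega
      · omega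
      · omega
      · omega
    · rcases rz with rz | rz | rz | rz | rz | rz
      · omega
      · omega
      · obtain ⟨rfl, rz⟩ := rz; omega
      · omega
      · omega
      · omega
    · rcases rz with rz | rz | rz | rz | rz | rz
      · omega
      · omega
      · obtain ⟨rfl, rz⟩ := rz; omega
      · omega
      · omega
      · omega
    · rcases rz with rz | rz | rz | rz | rz | rz
      · omega
      · omega
      · obtain ⟨rfl, rz⟩ := rz; omega
      · omega
      · omega
      · omega
    · obtain ⟨e1, e2, e3, e4, e5, e6, -⟩ := ta
      rcases rz with rz | rz | rz | rz | rz | rz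
      · omega
      · omega
      · obtain ⟨rfl, rz⟩ := rz; omega
      · omega
      · omega
      · omega
    · obtain ⟨e1, e2, e3, e4, e5, e6, -⟩ := ta
      rcases rz with rz | rz | rz | rz | rz | rz
      · omega
      · omega
      · obtain ⟨rfl, rz⟩ := rz; omega
      · omega
      · omega
      · omega

include B hib hbt htj hb ht hl in
theorem goodA' : Good h i j p q := by
  have hp := B.hp
  have hq := B.hq
  obtain ⟨K, hK0, hK⟩ := exists_bound h p (q + 1)
  refine ⟨hA h i j b K, blkA B hib hbt htj hb ht hl hK, ?_, ?_,
    cost_A B hib hbt htj hb ht hl hK, b, by omega, by omega, Or.inl ?_⟩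
  · intro a ha ha'
    have ta := typeA B (K := K) hib (by omega) hb hl a ha ha'
    have ka := hK a ha (by omega)
    have ka' := hK (a + 1) (by omega) (by omega)
    omega
  · intro e1 e2
    have r1 := regA B (K := K) hib (by omega) (j + 1) (by omega) (by omega)
    have r2 := regA B (K := K) hib (by omega) (i - 1) (by omega) (by omega)
    have k1 := hK (j + 1) (by omega) (by omega)
    have k2 := hK (i - 1) (by omega) (by omega)
    have := hl e1 b (by omega) (by omega)
    omega
  · intro x y hx hx' hy hy'
    have r1 := regA B (K := K) hib (by omega) x (by omega) (by omega)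
    have r2 := regA B (K := K) hib (by omega) y (by omega) (by omega)
    have k1 := hK x (by omega) (by omega)
    have k2 := hK y (by omega) (by omega)
    omega

/-- **The first rearrangement.** -/
theorem goodA (B : Blk h i j p q) {b t : ℤ} (hib : i ≤ b) (hbt : b < t) (htj : t ≤ j)
    (hb : ∀ z, i ≤ z → z ≤ j → h b ≤ h z) (ht : ∀ z, i ≤ z → z ≤ j → h z ≤ h t)
    (hl : p = i - 1 → ∀ z, i ≤ z → z ≤ j → h (i - 1) < h z) : Good h i j p q := by
  rcases eq_or_lt_of_le hib with h1 | h1
  · subst h1
    have hp := B.hp
    have hq := B.hq
    refine ⟨h, B, fun _ _ _ => Iff.rfl, fun _ _ => Iff.rfl, le_rfl, i, le_rfl, by omega,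
      Or.inl ?_⟩
    intro x y hx hx' hy hy'
    have := hb y (by omega) hy'
    have := B.ne (x := i) (y := y) (by omega) (by omega) (by omega) (by omega) (by omega)
    obtain rfl : x = i := by omega
    omega
  · exact goodA' B h1 hbt htj hb ht hl

end Pool.Agent.Lib.MP_868dd5_lc
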