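import Pool.Agent.Lib.MP_868dd5_lc.MoveA2

/-!
# The second rearrangement
-/

namespace Pool.Agent.Lib.MP_868dd5_lc

open Finset

variable {h : ℤ → ℤ} {i j p q : ℤ}

theorem card_split {p q b : ℤ} (Z : ℤ → Prop) [DecidablePred Z] :
    ((Icc p q).filter Z).card = ((Icc p q).filter fun a => Z a ∧ a < b).card +
        ((Icc p q).filter fun a => Z a ∧ b ≤ a).card := by
  rw [← card_union_of_disjoint]
  · congr 1
    ext a
    simp only [mem_filter, mem_union]
    constructor
    · rintro ⟨h3, h4⟩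
      rcases lt_or_ge a b with h5 | h5
      · exact Or.inl ⟨h3, h4, h5⟩
      · exact Or.inr ⟨h3, h4, h5⟩
    · rintro (⟨h3, h4, -⟩ | ⟨h3, h4, -⟩) <;> exact ⟨h3, h4⟩
  · rw [disjoint_left]
    intro a ha ha'
    rw [mem_filter] at ha ha'
    exact absurd ha.2.2 (not_lt.2 ha'.2.2)

/-- The rearranged heights. -/
def hZ (h : ℤ → ℤ) (i j t b K : ℤ) (x : ℤ) : ℤ :=
  if x < i then h x - 4 * K else if x < t then h x - 2 * K else if x ≤ b then h x
    else if x ≤ j then h x + 2 * K else h x + 4 * K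

theorem regZ {t b K : ℤ} (hit : i < t) (htb : t < b) (hbj : b < j) (x : ℤ) :
    (x < i ∧ hZ h i j t b K x = h x - 4 * K) ∨
    (i ≤ x ∧ x < t ∧ hZ h i j t b K x = h x - 2 * K) ∨
    (t ≤ x ∧ x ≤ b ∧ hZ h i j t b K x = h x) ∨
    (b < x ∧ x ≤ j ∧ hZ h i j t b K x = h x + 2 * K) ∨
    (j < x ∧ hZ h i j t b K x = h x + 4 * K) := by
  unfold hZ
  split_ifs <;> omega

/-- The types of the arcs. -/
theorem typeZ (B : Blk h i j p q) {t b K : ℤ} (hit : i < t) (htb : t < b) (hbj : b < j)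
    (hb : ∀ z, i ≤ z → z ≤ j → h b ≤ h z) (ht : ∀ z, i ≤ z → z ≤ j → h z ≤ h t)
    (hp : p = i - 1) (hq : q = j) (hl : ∀ z, i ≤ z → z ≤ j → h (i - 1) < h z)
    (hr : ∀ z, i ≤ z → z ≤ j → h z < h (j + 1)) (a : ℤ) (ha : p ≤ a) (ha' : a ≤ q) :
    (a = i - 1 ∧ hZ h i j t b K a = h a - 4 * K ∧ hZ h i j t b K (a + 1) = h (a + 1) - 2 * K ∧
      h a < h b ∧ h b < h (a + 1) ∧ h (a + 1) < h t) ∨
    (i ≤ a ∧ a + 1 < t ∧ hZ h i j t b K a = h a - 2 * K ∧
      hZ h i j t b K (a + 1) = h (a + 1) - 2 * K ∧ h b < h a ∧ h a < h t ∧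
      h b < h (a + 1) ∧ h (a + 1) < h t) ∨
    (a + 1 = t ∧ hZ h i j t b K a = h a - 2 * K ∧
      hZ h i j t b K (a + 1) = h (a + 1) ∧ h b < h a ∧ h a < h t ∧ h (a + 1) = h t) ∨
    (t ≤ a ∧ a + 1 ≤ b ∧ hZ h i j t b K a = h a ∧
      hZ h i j t b K (a + 1) = h (a + 1) ∧ h b < h a ∧ h (a + 1) < h t ∧
      (a = t → h a = h t) ∧ (a + 1 = b → h (a + 1) = h b) ∧ (a ≠ t → h a < h t) ∧
      (a + 1 ≠ b → h b < h (a + 1))) ∨
    (a = b ∧ hZ h i j t b K a = h a ∧
      hZ h i j t b K (a + 1) = h (a + 1) + 2 * K ∧ h a = h b ∧ h b < h (a + 1) ∧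
      h (a + 1) < h t) ∨
    (b < a ∧ a < j ∧ hZ h i j t b K a = h a + 2 * K ∧
      hZ h i j t b K (a + 1) = h (a + 1) + 2 * K ∧ h b < h a ∧ h a < h t ∧
      h b < h (a + 1) ∧ h (a + 1) < h t) ∨
    (a = j ∧ hZ h i j t b K a = h a + 2 * K ∧
      hZ h i j t b K (a + 1) = h (a + 1) + 4 * K ∧ h b < h a ∧ h a < h t ∧ h t < h (a + 1)) := by
  have hne : ∀ z, i ≤ z → z ≤ j → z ≠ b → h b < h z := by
    intro z h1 h2 h3
    have h4 := hb z h1 h2
    have h5 := B.ne (x := b) (y := z) (by omega) (by omega) (by omega) (by omega) (Ne.symm h3)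
    omega
  have hnt : ∀ z, i ≤ z → z ≤ j → z ≠ t → h z < h t := by
    intro z h1 h2 h3
    have h4 := ht z h1 h2
    have h5 := B.ne (x := t) (y := z) (by omega) (by omega) (by omega) (by omega) (Ne.symm h3)
    omega
  rcases lt_or_ge a i with h1 | h1
  · obtain rfl : a = i - 1 := by omega
    refine Or.inl ⟨rfl, ?_, ?_, ?_, ?_, ?_⟩
    · unfold hZ; rw [if_pos (by omega)]
    · unfold hZ; rw [if_neg (by omega), if_pos (by omega)]
    · exact hl b (by omega) (by omega)
    · exact hne _ (by omega) (by omega) (by omega)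
    · exact hnt _ (by omega) (by omega) (by omega)
  rcases lt_trichotomy (a + 1) t with h2 | h2 | h2
  · refine Or.inr (Or.inl ⟨h1, h2, ?_, ?_, ?_, ?_, ?_, ?_⟩)
    · unfold hZ; rw [if_neg (by omega), if_pos (by omega)]
    · unfold hZ; rw [if_neg (by omega), if_pos (by omega)]
    · exact hne _ (by omega) (by omega) (by omega)
    · exact hnt _ (by omega) (by omega) (by omega)
    · exact hne _ (by omega) (by omega) (by omega)
    · exact hnt _ (by omega) (by omega) (by omega)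
  · refine Or.inr (Or.inr (Or.inl ⟨h2, ?_, ?_, ?_, ?_, ?_⟩))
    · unfold hZ; rw [if_neg (by omega), if_pos (by omega)]
    · unfold hZ; rw [if_neg (by omega), if_neg (by omega), if_pos (by omega)]
    · exact hne _ (by omega) (by omega) (by omega)
    · exact hnt _ (by omega) (by omega) (by omega)
    · rw [h2]
  rcases lt_trichotomy a b with h3 | h3 | h3
  · refine Or.inr (Or.inr (Or.inr (Or.inl ⟨by omega, by omega, ?_, ?_, ?_, ?_, ?_, ?_, ?_, ?_⟩)))
    · unfold hZ; rw [if_neg (by omega), if_neg (by omega), if_pos (by omega)]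
    · unfold hZ; rw [if_neg (by omega), if_neg (by omega), if_pos (by omega)]
    · exact hne _ (by omega) (by omega) (by omega)
    · exact hnt _ (by omega) (by omega) (by omega)
    · intro e; rw [e]
    · intro e; rw [e]
    · exact hnt _ (by omega) (by omega)
    · exact hne _ (by omega) (by omega)
  · refine Or.inr (Or.inr (Or.inr (Or.inr (Or.inl ⟨h3, ?_, ?_, ?_, ?_, ?_⟩))))
    · unfold hZ; rw [if_neg (by omega), if_neg (by omega), if_pos (by omega)]
    · unfold hZ
      rw [if_neg (by omega), if_neg (by omega), if_neg (by omega), if_pos (by omega)]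
    · rw [h3]
    · exact hne _ (by omega) (by omega) (by omega)
    · exact hnt _ (by omega) (by omega) (by omega)
  rcases lt_or_ge a j with h4 | h4
  · refine Or.inr (Or.inr (Or.inr (Or.inr (Or.inr (Or.inl ⟨h3, h4, ?_, ?_, ?_, ?_, ?_, ?_⟩)))))
    · unfold hZ
      rw [if_neg (by omega), if_neg (by omega), if_neg (by omega), if_pos (by omega)]
    · unfold hZ
      rw [if_neg (by omega), if_neg (by omega), if_neg (by omega), if_pos (by omega)]
    · exact hne _ (by omega) (by omega) (by omega)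
    · exact hnt _ (by omega) (by omega) (by omega)
    · exact hne _ (by omega) (by omega) (by omega)
    · exact hnt _ (by omega) (by omega) (by omega)
  · obtain rfl : a = j := by omega
    refine Or.inr (Or.inr (Or.inr (Or.inr (Or.inr (Or.inr ⟨rfl, ?_, ?_, ?_, ?_, ?_⟩)))))
    · unfold hZ
      rw [if_neg (by omega), if_neg (by omega), if_neg (by omega), if_pos (by omega)]
    · unfold hZ
      rw [if_neg (by omega), if_neg (by omega), if_neg (by omega), if_neg (by omega)]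
    · exact hne _ (by omega) (by omega) (by omega)
    · exact hnt _ (by omega) (by omega) (by omega)
    · exact hr _ (by omega) (by omega)

variable (B : Blk h i j p q) {t b K : ℤ} (hit : i < t) (htb : t < b) (hbj : b < j)
    (hb : ∀ z, i ≤ z → z ≤ j → h b ≤ h z) (ht : ∀ z, i ≤ z → z ≤ j → h z ≤ h t)
    (hp : p = i - 1) (hq : q = j) (hl : ∀ z, i ≤ z → z ≤ j → h (i - 1) < h z)
    (hr : ∀ z, i ≤ z → z ≤ j → h z < h (j + 1))
    (hK : ∀ x, p ≤ x → x ≤ q + 1 → -K < h x ∧ h x < K)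
include B hit htb hbj hb ht hp hq hl hr hK

theorem ncZ (a c : ℤ) (ha : p ≤ a) (ha' : a ≤ q) (hc : p ≤ c) (hc' : c ≤ q) (hac : a ≠ c)
    (hpar : (a - c) % 2 = 0) :
    btw (hZ h i j t b K) a c ↔ btw (hZ h i j t b K) a (c + 1) := by
  have ta := typeZ B (K := K) hit htb hbj hb ht hp hq hl hr a ha ha'
  have tc := typeZ B (K := K) hit htb hbj hb ht hp hq hl hr c hc hc'
  have N := B.nc a c ha ha' hc hc' hac hpar
  have c2 := claim2 B hp hl hit htb hb ht hbj hq hr
  have ka := hK a ha (by omega)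
  have ka' := hK (a + 1) (by omega) (by omega)
  have kc := hK c hc (by omega)
  have kc' := hK (c + 1) (by omega) (by omega)
  unfold btw at N ⊢
  rcases ta with ta | ta | ta | ta | ta | ta | ta <;>
  rcases tc with tc | tc | tc | tc | tc | tc | tc <;> omega

end Pool.Agent.Lib.MP_868dd5_lc
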