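import Pool.Agent.Lib.MP_868dd5_lc.Basic

/-!
# Parity arguments
-/

namespace Pool.Agent.Lib.MP_868dd5_lc

open Finset

open Classical in
/-- The number of integers in `[u, v]` with the property `Y`. -/
noncomputable def num (u v : ℤ) (Y : ℤ → Prop) : ℕ := ((Icc u v).filter Y).card

theorem num_self (u : ℤ) (Y : ℤ → Prop) : (Y u → num u u Y = 1) ∧ (¬ Y u → num u u Y = 0) := by
  unfold num
  constructor
  · intro h
    rw [Icc_self, filter_singleton, if_pos h, card_singleton]
  · intro h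
    rw [Icc_self, filter_singleton, if_neg h, card_empty]

theorem num_succ {u v : ℤ} (huv : u ≤ v + 1) (Y : ℤ → Prop) :
    (Y (v + 1) → num u (v + 1) Y = num u v Y + 1) ∧
      (¬ Y (v + 1) → num u (v + 1) Y = num u v Y) := by
  have e : Icc u (v + 1) = insert (v + 1) (Icc u v) := by
    ext x; rw [mem_insert, mem_Icc, mem_Icc]; omega
  unfold num
  constructor
  · intro h
    rw [e, filter_insert, if_pos h, card_insert_of_notMem (by simp)]
  · intro h
    rw [e, filter_insert, if_neg h]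

open Classical in
/-- Indicator. -/
noncomputable def ind (P : Prop) : ℕ := if P then 1 else 0

theorem ind_pos {P : Prop} (h : P) : ind P = 1 := if_pos h

theorem ind_neg {P : Prop} (h : ¬ P) : ind P = 0 := if_neg h

/-- **The parity lemma.** -/
theorem num_parity (s u : ℤ) (Y : ℤ → Prop) (v : ℤ) (huv : u ≤ v)
    (hY : ∀ a, u ≤ a → a < v → (a - s) % 2 = 0 → (Y a ↔ Y (a + 1))) :
    (num u v Y + ind ((u - 1 - s) % 2 = 0 ∧ Y u) + ind ((v - s) % 2 = 0 ∧ Y v)) % 2 = 0 := by
  induction v, huv using Int.leInduction with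
  | base =>
    have h := num_self u Y
    by_cases hY : Y u
    · rw [h.1 hY]
      by_cases hs : (u - s) % 2 = 0
      · rw [ind_neg (fun hh => by have := hh.1; omega), ind_pos ⟨hs, hY⟩]
      · rw [ind_neg (P := (u - s) % 2 = 0 ∧ Y u) (fun hh => hs hh.1), ind_pos ⟨by omega, hY⟩]
    · rw [h.2 hY, ind_neg (fun hh => hY hh.2), ind_neg (fun hh => hY hh.2)]
  | succ v huv ih =>
    have ih' := ih fun a ha ha' => hY a ha (by omega)
    have h := num_succ (show u ≤ v + 1 by omega) Y
    by_cases hs : (v - s) % 2 = 0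
    · have hv := hY v huv (by omega) hs
      rw [ind_neg (P := (v + 1 - s) % 2 = 0 ∧ Y (v + 1)) (fun hh => by have := hh.1; omega)]
      by_cases hYv : Y v
      · rw [h.1 (hv.1 hYv)]
        rw [ind_pos (P := (v - s) % 2 = 0 ∧ Y v) ⟨hs, hYv⟩] at ih'
        omega
      · rw [h.2 (fun hh => hYv (hv.2 hh))]
        rw [ind_neg (P := (v - s) % 2 = 0 ∧ Y v) (fun hh => hYv hh.2)] at ih'
        omega
    · rw [ind_neg (P := (v - s) % 2 = 0 ∧ Y v) (fun hh => hs hh.1)] at ih'
      by_cases hYv : Y (v + 1)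
      · rw [h.1 hYv, ind_pos (P := (v + 1 - s) % 2 = 0 ∧ Y (v + 1)) ⟨by omega, hYv⟩]
        omega
      · rw [h.2 hYv, ind_neg (P := (v + 1 - s) % 2 = 0 ∧ Y (v + 1)) (fun hh => hYv hh.2)]
        omega

/-- The number of segments of `[u, v]` below `x`. -/
noncomputable def bel (h : ℤ → ℤ) (u v x : ℤ) : ℕ := num u v fun c => h c < h x

theorem num_congr {u v : ℤ} {Y Z : ℤ → Prop} (hYZ : ∀ c, u ≤ c → c ≤ v → (Y c ↔ Z c)) :
    num u v Y = num u v Z := by
  unfold num
  congr 1
  ext c
  simp only [mem_filter, mem_Icc]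
  constructor
  · rintro ⟨h1, h2⟩; exact ⟨h1, (hYZ c h1.1 h1.2).1 h2⟩
  · rintro ⟨h1, h2⟩; exact ⟨h1, (hYZ c h1.1 h1.2).2 h2⟩

theorem num_add {u v : ℤ} {Y Z W : ℤ → Prop} (h1 : ∀ c, u ≤ c → c ≤ v → (W c ↔ (Y c ∨ Z c)))
    (h2 : ∀ c, u ≤ c → c ≤ v → ¬ (Y c ∧ Z c)) : num u v W = num u v Y + num u v Z := by
  classical
  unfold num
  rw [← card_union_of_disjoint]
  · congr 1
    ext c
    simp only [mem_filter, mem_Icc, mem_union]
    constructor
    · rintro ⟨h3, h4⟩
      rcases (h1 c h3.1 h3.2).1 h4 with h | h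
      · exact Or.inl ⟨h3, h⟩
      · exact Or.inr ⟨h3, h⟩
    · rintro (⟨h3, h4⟩ | ⟨h3, h4⟩)
      · exact ⟨h3, (h1 c h3.1 h3.2).2 (Or.inl h4)⟩
      · exact ⟨h3, (h1 c h3.1 h3.2).2 (Or.inr h4)⟩
  · rw [disjoint_left]
    intro c hc hc'
    rw [mem_filter, mem_Icc] at hc hc'
    exact h2 c hc.1.1 hc.1.2 ⟨hc.2, hc'.2⟩

/-- The number of segments below changes along an arc by the number of segments between its
ends. -/
theorem bel_step {h : ℤ → ℤ} {u v a : ℤ} (h0 : ∀ c, u ≤ c → c ≤ v → h c ≠ h a)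
    (h1 : ∀ c, u ≤ c → c ≤ v → h c ≠ h (a + 1)) :
    (bel h u v a + bel h u v (a + 1) + num u v (btw h a)) % 2 = 0 := by
  unfold bel
  rcases lt_trichotomy (h a) (h (a + 1)) with hlt | heq | hgt
  · rw [num_add (W := fun c => h c < h (a + 1)) (Y := fun c => h c < h a) (Z := btw h a)]
    · omega
    · intro c hc hc'
      have := h0 c hc hc'
      have := h1 c hc hc'
      unfold btw
      omega
    · intro c hc hc'
      unfold btw
      omega
  · have : num u v (btw h a) = num u v fun _ => False :=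
      num_congr fun c _ _ => by simp only [iff_false]; unfold btw; omega
    have e : num u v (fun _ => False) = 0 := by unfold num; simp
    rw [this, e, heq]
    omega
  · rw [num_add (W := fun c => h c < h a) (Y := fun c => h c < h (a + 1)) (Z := btw h a)]
    · omega
    · intro c hc hc'
      have := h0 c hc hc'
      have := h1 c hc hc'
      unfold btw
      omega
    · intro c hc hc'
      unfold btw
      omega

end Pool.Agent.Lib.MP_868dd5_lc
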