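import Pool.Agent.Lib.MP_868dd5_lc.Spec
import Pool.Agent.Lib.PolyFun.Final

/-!
# The dynamic program runs in polynomial time
-/

namespace Pool.Agent.Lib.MP_868dd5_lc

open Pool.Agent.Lib.PolyFun

variable {α : Type} [TEnc α]

theorem pt_better' : PT fun p : Sol × Sol => better p.1 p.2 := by
  have h2 : PT fun s : (Sol × Sol) × (ℕ × List ℕ) => better (some s.2) s.1.2 := by
    refine PT.optCases (o := fun s : (Sol × Sol) × (ℕ × List ℕ) => s.1.2) (PT.snd.comp PT.fst)
      (f := fun s => some s.2) (PT.some PT.snd)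
      (g := fun t => if t.1.2.1 ≤ t.2.1 then some t.1.2 else some t.2)
      (PT.ite (PT.le (PT.fst.comp (PT.snd.comp PT.fst)) (PT.fst.comp PT.snd))
        (PT.some (PT.snd.comp PT.fst)) (PT.some PT.snd)) ?_ ?_
    · intro s h; simp only [h, better]
    · intro s b h; simp only [h, better]
  refine PT.optCases (o := fun p : Sol × Sol => p.1) PT.fst (f := fun p => p.2) PT.snd
    (g := fun s => better (some s.2) s.1.2) h2 ?_ ?_
  · intro s h; simp only [h, better]
  · intro s b h; simp only [h]

theorem pt_better {f g : α → Sol} (hf : PT f) (hg : PT g) : PT fun x => better (f x) (g x) :=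
  pt_better'.comp (hf.pair hg)

theorem pt_best' : PT best := by
  refine PT.foldl' (α := List Sol) (β := Sol) (γ := Sol) (l := fun l => l) (i := fun _ => none)
    (g := fun s => better s.1.2 s.2) PT.id (PT.const _) (pt_better (PT.snd.comp PT.fst) PT.snd)
    PBd.sz fun x l₁ l₂ e => ?_
  simp only
  rcases h : l₁.foldl (fun c b => better c b) none with _ | y
  · exact one_le_sz _
  · rcases foldl_better_mem h with h | h
    · exact absurd h (by simp)
    · exact (sz_mem h).trans (sz_prefix_le e)

theorem pt_best {f : α → List Sol} (hf : PT f) : PT fun x => best (f x) := pt_best'.comp hf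

theorem pt_compo {τ : α → Bool} {p : α → Sol × Sol} (hτ : PT τ) (hp : PT p) :
    PT fun x => compo (τ x) (p x) := PT.cond hτ (PT.fst.comp hp) (PT.snd.comp hp)

theorem pt_pick {n i j : α → ℕ} {τ : α → Bool} {p : α → Sol × Sol} (hn : PT n) (hi : PT i)
    (hj : PT j) (hτ : PT τ) (hp : PT p) : PT fun x => pick (n x) (i x) (j x) (τ x) (p x) := by
  unfold pick
  refine PT.ite ?_ (pt_compo hτ hp) (pt_better (PT.fst.comp hp) (PT.snd.comp hp))
  refine (PT.and (PT.lt (PT.const 0) hi) (PT.and (PT.lt hj hn)
    (PT.not (PT.beq (PT.odd hi) (PT.odd hj))))).congr fun x => ?_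
  simp only [Bool.decide_and, decide_not]
  congr 2
  rcases Nat.mod_two_eq_zero_or_one (i x) with h | h <;>
    rcases Nat.mod_two_eq_zero_or_one (j x) with h' | h' <;> simp [h, h']

theorem pt_up {s : α → List Bool} {a : α → ℕ} (hs : PT s) (ha : PT a) :
    PT fun x => upS (s x) (a x) := PT.beq (PT.getD ha hs (PT.const _)) (PT.odd ha)

theorem pt_bne {f g : α → Bool} (hf : PT f) (hg : PT g) : PT fun x => decide (f x ≠ g x) :=
  (PT.not (PT.beq hf hg)).congr fun x => by cases f x <;> cases g x <;> rfl

theorem pt_beq {f g : α → Bool} (hf : PT f) (hg : PT g) : PT fun x => decide (f x = g x) :=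
  (PT.beq hf hg).congr fun x => by cases f x <;> cases g x <;> rfl

theorem pt_extra {s : α → List Bool} {i j k : α → ℕ} {τ : α → Bool} (hs : PT s)
    (hi : PT i) (hj : PT j) (hk : PT k) (hτ : PT τ) :
    PT fun x => extra (s x).length (upS (s x)) (i x) (j x) (k x) (τ x) := by
  unfold extra
  refine PT.add (PT.ite ?_ (PT.sub hj hk) (PT.const _))
    (PT.ite ?_ (PT.sub (PT.succ hk) hi) (PT.const _))
  · exact (PT.and (PT.lt (PT.const 0) hi) (pt_bne (pt_up hs (PT.pred hi)) hτ)).congr
      fun x => by rw [Bool.decide_and]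
  · exact (PT.and (PT.lt hj (PT.length hs)) (pt_bne (pt_up hs hj) hτ)).congr
      fun x => by rw [Bool.decide_and]

theorem pt_joinL {τ : α → Bool} {A B : α → List ℕ} (hτ : PT τ) (hA : PT A) (hB : PT B) :
    PT fun x => joinL (τ x) (A x) (B x) := PT.cond hτ (PT.append hA hB) (PT.append hB hA)

theorem pt_comb {s : α → List Bool} {i j k : α → ℕ} {τ : α → Bool} {a b : α → Sol} (hs : PT s)
    (hi : PT i) (hj : PT j) (hk : PT k) (hτ : PT τ) (ha : PT a) (hb : PT b) :
    PT fun x => comb (s x).length (upS (s x)) (i x) (j x) (k x) (τ x) (a x) (b x) := by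
  have h2 : PT fun y : α × (ℕ × List ℕ) => comb (s y.1).length (upS (s y.1)) (i y.1) (j y.1)
      (k y.1) (τ y.1) (some y.2) (b y.1) := by
    refine PT.optCases (o := fun y : α × (ℕ × List ℕ) => b y.1) (hb.comp PT.fst)
      (f := fun _ => none) (PT.const _)
      (g := fun z => some (z.1.2.1 + z.2.1 + extra (s z.1.1).length (upS (s z.1.1)) (i z.1.1)
        (j z.1.1) (k z.1.1) (τ z.1.1), joinL (τ z.1.1) z.1.2.2 z.2.2)) ?_ ?_ ?_
    · have h0 : PT fun z : (α × (ℕ × List ℕ)) × (ℕ × List ℕ) => z.1.1 := PT.fst.comp PT.fst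
      refine PT.some (PT.pair (PT.add (PT.add (PT.fst.comp (PT.snd.comp PT.fst))
        (PT.fst.comp PT.snd)) ?_) ?_)
      · exact pt_extra (hs.comp h0) (hi.comp h0) (hj.comp h0) (hk.comp h0) (hτ.comp h0)
      · exact pt_joinL (hτ.comp h0) (PT.snd.comp (PT.snd.comp PT.fst)) (PT.snd.comp PT.snd)
    · intro y h; simp only [h, comb]
    · intro y z h; simp only [h, comb]
  refine PT.optCases (o := a) ha (f := fun _ => none) (PT.const _) h2 ?_ ?_
  · intro y h; simp only [h, comb]
  · intro y z h; simp only [h]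

theorem pt_get {T : α → List (List (Sol × Sol))} {l i : α → ℕ} (hT : PT T) (hl : PT l)
    (hi : PT i) : PT fun x => get (T x) (l x) (i x) :=
  PT.getD hi (PT.getD hl hT (PT.const _)) (PT.const _)

theorem pt_cand {s : α → List Bool} {T : α → List (List (Sol × Sol))} {l i k : α → ℕ}
    {τ : α → Bool} (hs : PT s) (hT : PT T) (hl : PT l) (hi : PT i) (hτ : PT τ) (hk : PT k) :
    PT fun x => cand (s x).length (upS (s x)) (T x) (l x) (i x) (τ x) (k x) := by
  unfold cand
  have hn := PT.length hs
  have hik := PT.add hi hk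
  have hil := PT.add hi hl
  refine PT.ite (pt_beq (pt_up hs hik) hτ) ?_ (PT.const _)
  exact pt_comb hs hi hil hik hτ (pt_pick hn hi hik hτ (pt_get hT hk hi))
    (pt_pick hn (PT.succ hik) hil hτ (pt_get hT (PT.sub (PT.sub hl hk) (PT.const 1))
      (PT.succ hik)))

theorem pt_entry {s : α → List Bool} {T : α → List (List (Sol × Sol))} {l i : α → ℕ}
    (hs : PT s) (hT : PT T) (hl : PT l) (hi : PT i) :
    PT fun x => entry (s x).length (upS (s x)) (T x) (l x) (i x) := by
  unfold entry
  have hc : ∀ τ : Bool, PT fun x => best ((List.range (l x)).map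
      (cand (s x).length (upS (s x)) (T x) (l x) (i x) τ)) := by
    intro τ
    refine pt_best (PT.map (PT.range hl) (g := fun y : α × ℕ =>
      cand (s y.1).length (upS (s y.1)) (T y.1) (l y.1) (i y.1) τ y.2) ?_)
    exact pt_cand (hs.comp PT.fst) (hT.comp PT.fst) (hl.comp PT.fst) (hi.comp PT.fst)
      (PT.const _) PT.snd
  have h0 : PT fun x => some ((0 : ℕ), [i x]) :=
    PT.some (PT.pair (PT.const 0) (PT.cons hi (PT.const [])))
  exact PT.ite (PT.isZero hl) (PT.pair h0 h0) (PT.pair (hc true) (hc false))

theorem pt_row {s : α → List Bool} {T : α → List (List (Sol × Sol))} {l : α → ℕ}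
    (hs : PT s) (hT : PT T) (hl : PT l) :
    PT fun x => row (s x).length (upS (s x)) (T x) (l x) := by
  unfold row
  exact PT.map (PT.range (PT.sub (PT.succ (PT.length hs)) hl)) (g := fun y : α × ℕ =>
    entry (s y.1).length (upS (s y.1)) (T y.1) (l y.1) y.2)
    (pt_entry (hs.comp PT.fst) (hT.comp PT.fst) (hl.comp PT.fst) PT.snd)

theorem tab_eq (n : ℕ) (up : ℕ → Bool) (m : ℕ) :
    (fun T => T ++ [row n up T T.length])^[m] [] = tab n up m := by
  induction m with
  | zero => rfl
  | succ m ih => rw [Function.iterate_succ_apply', ih, tab, length_tab]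

/-! ### The size of the table -/

theorem cst_le {n : ℕ} {up : ℕ → Bool} {i j : ℕ} {L : List ℕ} (V : VL n up i j L)
    (hij : i ≤ j) (hj : j ≤ n) : cst n up i j L ≤ (n + 2) * (n + 1) := by
  have hl := V.length (by omega)
  have hlen : L.length ≤ n + 1 := by omega
  have hp : ∀ x, i ≤ x → x ≤ j → pos L x < L.length := fun x h1 h2 =>
    pos_lt ((V.mem x).2 ⟨h1, h2⟩)
  have h1 : ∑ a ∈ Finset.Ico i j, wid L a ≤ ∑ _a ∈ Finset.Ico i j, (n + 1) := by
    refine Finset.sum_le_sum fun a ha => ?_
    rw [Finset.mem_Ico] at ha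
    have := hp a (by omega) (by omega)
    have := hp (a + 1) (by omega) (by omega)
    unfold wid
    omega
  rw [Finset.sum_const, Nat.card_Ico, smul_eq_mul] at h1
  have h2 : (j - i) * (n + 1) ≤ n * (n + 1) := Nat.mul_le_mul_right _ (by omega)
  have h3 : lray up i L ≤ n + 1 := by
    unfold lray
    have := hp i le_rfl hij
    split_ifs <;> omega
  have h4 : rray n up j L ≤ n + 1 := by
    unfold rray
    have := hp j hij le_rfl
    split_ifs <;> omega
  unfold cst
  have : (n + 2) * (n + 1) = n * (n + 1) + (n + 1) + (n + 1) := by ring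
  omega

/-- The bound for the size of a candidate. -/
def szB (n : ℕ) : ℕ := 2 * ((n + 2) * (n + 1)) + (n + 1) * (2 * n + 2) + 5

theorem sz_sol_le {n : ℕ} {up : ℕ → Bool} {l i : ℕ} (h : i + l ≤ n) :
    sz (sol n up l i) ≤ 2 * szB n + 1 := by
  have O := optP_sol n up l i h
  have key : ∀ τ, sz (compo τ (sol n up l i)) ≤ szB n := by
    intro τ
    rcases e : compo τ (sol n up l i) with _ | ⟨c, L⟩
    · rw [sz_none]; unfold szB; omega
    · obtain ⟨V, hc, -⟩ := O.valid τ c L e
      have h1 := cst_le V (by omega) h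
      have h2 := V.length (by omega)
      rw [hc] at h1
      have h3 : sz L ≤ (n + 1) * (2 * n + 2) + 1 := by
        refine (sz_list_le (k := 2 * n + 1) ?_).trans ?_
        · intro a ha
          have := (V.mem a).1 ha
          rw [sz_nat]; omega
        · exact Nat.add_le_add_right (Nat.mul_le_mul_right _ (by omega)) 1
      rw [sz_some, sz_pair, sz_nat]
      unfold szB
      omega
  have h1 := key true
  have h2 := key false
  have h3 : sz (sol n up l i) = sz (compo true (sol n up l i)) +
    sz (compo false (sol n up l i)) + 1 := sz_pair _ _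
  omega

theorem sz_row_le {n : ℕ} {up : ℕ → Bool} {l : ℕ} :
    sz (row n up (tab n up l) l) ≤ (n + 1) * (2 * szB n + 2) + 1 := by
  refine (sz_list_le (k := 2 * szB n + 1) ?_).trans ?_
  · intro a ha
    obtain ⟨i, hi, rfl⟩ := List.mem_map.1 ha
    rw [List.mem_range] at hi
    exact sz_sol_le (by omega)
  · refine Nat.add_le_add_right (Nat.mul_le_mul_right _ ?_) 1
    unfold row
    rw [List.length_map, List.length_range]
    omega

theorem sz_tab_le {n : ℕ} {up : ℕ → Bool} {m : ℕ} (hm : m ≤ n + 1) :
    sz (tab n up m) ≤ (n + 1) * ((n + 1) * (2 * szB n + 2) + 2) + 1 := by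
  have key : sz (tab n up m) ≤ m * ((n + 1) * (2 * szB n + 2) + 2) + 1 := by
    clear hm
    induction m with
    | zero => rw [tab, sz_nil]; omega
    | succ m ih =>
      have h1 := sz_append (tab n up m) [row n up (tab n up m) m]
      rw [sz_cons, sz_nil] at h1
      have h2 := sz_row_le (n := n) (up := up) (l := m)
      rw [tab, Nat.add_mul m 1]
      omega
  exact key.trans (Nat.add_le_add_right (Nat.mul_le_mul_right _ hm) 1)

theorem pt_tab : PT fun s : List Bool => tab s.length (upS s) (s.length + 1) := by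
  have hn : PBd fun s : List Bool => s.length := PBd.sz.mono fun s => length_le_sz s
  have hB : PBd fun s : List Bool => szB s.length := by
    unfold szB
    exact (((PBd.const 2).mul ((hn.add (PBd.const 2)).mul (hn.add (PBd.const 1)))).add
      ((hn.add (PBd.const 1)).mul (((PBd.const 2).mul hn).add (PBd.const 2)))).add (PBd.const 5)
  have hn1 := hn.add (PBd.const 1)
  have h : PT fun s : List Bool =>
      (fun T => T ++ [row s.length (upS s) T T.length])^[s.length + 1] [] :=
    PT.iterate (α := List Bool) (γ := List (List (Sol × Sol))) (n := fun s => s.length + 1)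
      (i := fun _ => []) (PT.succ (PT.length PT.id)) (PT.const _)
      (g := fun p => p.2 ++ [row p.1.length (upS p.1) p.2 p.2.length])
      (PT.append PT.snd (PT.cons (pt_row PT.fst PT.snd (PT.length PT.snd)) (PT.const _)))
      (B := fun s => (s.length + 1) * ((s.length + 1) * (2 * szB s.length + 2) + 2) + 1)
      ((hn1.mul ((hn1.mul (((PBd.const 2).mul hB).add (PBd.const 2))).add (PBd.const 2))).add
        (PBd.const 1))
      (fun s k hk => by
        simp only
        rw [tab_eq]
        exact sz_tab_le hk)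
  exact h.congr fun s => (tab_eq _ _ _).symm

theorem pt_solve : PT solve := by
  have h1 : PT fun s : List Bool => get (tab s.length (upS s) (s.length + 1)) s.length 0 :=
    pt_get pt_tab (PT.length PT.id) (PT.const 0)
  refine PT.optCases (o := fun s : List Bool =>
    better (get (tab s.length (upS s) (s.length + 1)) s.length 0).1
      (get (tab s.length (upS s) (s.length + 1)) s.length 0).2)
    (pt_better (PT.fst.comp h1) (PT.snd.comp h1)) (f := fun _ => []) (PT.const _)
    (g := fun p => p.2.2) (PT.snd.comp PT.snd) ?_ ?_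
  · intro s h; unfold solve; rw [h]
  · intro s b h; unfold solve; rw [h]

theorem pt_encode : PT encode :=
  PT.flatMap (α := List ℕ) (β := ℕ) (γ := Bool) (l := fun L => L) PT.id
    (g := fun p => List.replicate p.2 true ++ [false])
    (PT.append (PT.replicate PT.snd (PT.const _)) (PT.const _))

/-- The dynamic program is computed in polynomial time by a Turing machine. -/
theorem solve_tm2 :
    Nonempty (Turing.TM2ComputableInPolyTime (id : List Bool → List Bool) encode solve) :=
  tm2_of_PT encode solve (pt_encode.comp pt_solve)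

end Pool.Agent.Lib.MP_868dd5_lc
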