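import Pool.Agent.Lib.MP_868dd5_lc.Step

/-!
# Splitting a block into two blocks
-/

namespace Pool.Agent.Lib.MP_868dd5_lc

open Finset

variable {h : ℤ → ℤ} {i j p q k : ℤ}

theorem Blk.restrictA (B : Blk h i j p q) (hik : i ≤ k) (hkj : k < j)
    (hs : (∀ x y, i ≤ x → x ≤ k → k < y → y ≤ j → h x < h y) ∨
      (∀ x y, i ≤ x → x ≤ k → k < y → y ≤ j → h y < h x)) : Blk h i k p k where
  hp := B.hp
  hq := Or.inr rfl
  inj x y h1 h2 h3 h4 h5 := by
    have := B.hq
    exact B.inj x y h1 (by omega) h3 (by omega) h5
  nc a c h1 h2 h3 h4 h5 h6 := by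
    have := B.hq
    exact B.nc a c h1 (by omega) h3 (by omega) h5 h6
  left hl := by
    rcases B.left hl with H | H
    · exact Or.inl fun z h1 h2 => H z h1 (by omega)
    · exact Or.inr fun z h1 h2 => H z h1 (by omega)
  right _ := by
    rcases hs with H | H
    · exact Or.inr fun z h1 h2 => H z (k + 1) h1 h2 (by omega) (by omega)
    · exact Or.inl fun z h1 h2 => H z (k + 1) h1 h2 (by omega) (by omega)

theorem Blk.restrictB (B : Blk h i j p q) (hik : i ≤ k) (hkj : k < j)
    (hs : (∀ x y, i ≤ x → x ≤ k → k < y → y ≤ j → h x < h y) ∨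
      (∀ x y, i ≤ x → x ≤ k → k < y → y ≤ j → h y < h x)) : Blk h (k + 1) j k q where
  hp := Or.inr (by ring)
  hq := B.hq
  inj x y h1 h2 h3 h4 h5 := by
    have := B.hp
    exact B.inj x y (by omega) h2 (by omega) h4 h5
  nc a c h1 h2 h3 h4 h5 h6 := by
    have := B.hp
    exact B.nc a c (by omega) h2 (by omega) h4 h5 h6
  left _ := by
    rw [show k + 1 - 1 = k by ring]
    rcases hs with H | H
    · exact Or.inl fun z h1 h2 => H k z hik le_rfl (by omega) h2
    · exact Or.inr fun z h1 h2 => H k z hik le_rfl (by omega) h2
  right hr := by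
    rcases B.right hr with H | H
    · exact Or.inl fun z h1 h2 => H z (by omega) h2
    · exact Or.inr fun z h1 h2 => H z (by omega) h2

/-- The cost of a block is at least the cost of its two parts and the layers of one part that
are covered by the ray of the other part. -/
theorem add_ge (hik : i ≤ k) (hkj : k < j) (hp : p = i ∨ p = i - 1) (hq : q = j - 1 ∨ q = j)
    (eL eR : ℕ)
    (hL : eL = 0 ∨ (p = i - 1 ∧ (eL : ℤ) = j - k ∧ ∀ z, k < z → z ≤ j → btw h (i - 1) z))
    (hR : eR = 0 ∨ (q = j ∧ (eR : ℤ) = k + 1 - i ∧ ∀ z, i ≤ z → z ≤ k → btw h j z)) :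
    cost h i k p k + cost h (k + 1) j k q + eL + eR ≤ cost h i j p q := by
  have e1 : cost h i j p q = (∑ a ∈ Icc p q, ((Icc i k).filter fun z => btw h a z).card) +
      ∑ a ∈ Icc p q, ((Icc (k + 1) j).filter fun z => btw h a z).card := by
    rw [← sum_add_distrib]
    refine sum_congr rfl fun a _ => ?_
    rw [← card_union_of_disjoint, ← filter_union]
    · congr 2
      ext x; simp only [mem_Icc, mem_union]; omega
    · refine disjoint_filter_filter ?_
      rw [Finset.disjoint_left]
      intro x hx hx'
      rw [mem_Icc] at hx hx'; omega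
  have e2 : cost h i k p k + eR ≤
      ∑ a ∈ Icc p q, ((Icc i k).filter fun z => btw h a z).card := by
    rcases hR with hR | ⟨h1, h2, h3⟩
    · rw [hR, Nat.add_zero]
      refine sum_le_sum_of_subset ?_
      exact Icc_subset_Icc_right (by omega)
    · have e3 : insert j (Icc p k) ⊆ Icc p q := by
        intro x hx
        rw [mem_insert, mem_Icc] at hx
        rw [mem_Icc]; omega
      have e4 : eR = ((Icc i k).filter fun z => btw h j z).card := by
        rw [filter_true_of_mem]
        · rw [Int.card_Icc]; omega
        · intro z hz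
          rw [mem_Icc] at hz
          exact h3 z hz.1 hz.2
      refine le_trans ?_ (sum_le_sum_of_subset e3)
      rw [sum_insert (by rw [mem_Icc]; omega), e4]
      unfold cost
      omega
  have e3 : cost h (k + 1) j k q + eL ≤
      ∑ a ∈ Icc p q, ((Icc (k + 1) j).filter fun z => btw h a z).card := by
    rcases hL with hL | ⟨h1, h2, h3⟩
    · rw [hL, Nat.add_zero]
      refine sum_le_sum_of_subset ?_
      exact Icc_subset_Icc_left (by omega)
    · have e3 : insert (i - 1) (Icc k q) ⊆ Icc p q := by
        intro x hx
        rw [mem_insert, mem_Icc] at hx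
        rw [mem_Icc]; omega
      have e4 : eL = ((Icc (k + 1) j).filter fun z => btw h (i - 1) z).card := by
        rw [filter_true_of_mem]
        · rw [Int.card_Icc]; omega
        · intro z hz
          rw [mem_Icc] at hz
          exact h3 z (by omega) hz.2
      refine le_trans ?_ (sum_le_sum_of_subset e3)
      rw [sum_insert (by rw [mem_Icc]; omega), e4]
      unfold cost
      omega
  omega

/-- If both rays are on the same side then the order of the two ends of the block is determined
by the outside. -/
theorem typ_eq {h' : ℤ → ℤ} (B : Blk h i j p q) (B' : Blk h' i j p q) (hij : i < j)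
    (hp : p = i - 1) (hq : q = j) (hpar : (i - 1 - j) % 2 = 0)
    (h1 : h' (i - 1) < h' i ↔ h (i - 1) < h i) (h2 : h' j < h' (j + 1) ↔ h j < h (j + 1))
    (h3 : h' (i - 1) < h' (j + 1) ↔ h (i - 1) < h (j + 1)) : h' i < h' j ↔ h i < h j := by
  have n1 := B.nc (i - 1) j (by omega) (by omega) (by omega) (by omega) (by omega) hpar
  have n2 := B'.nc (i - 1) j (by omega) (by omega) (by omega) (by omega) (by omega) hpar
  unfold btw at n1 n2
  rw [sub_add_cancel] at n1 n2
  have a1 : h i ≠ h j := fun e => by
    have := B.inj _ _ (by omega) (by omega) (by omega) (by omega) e; omega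
  have a2 : h' i ≠ h' j := fun e => by
    have := B'.inj _ _ (by omega) (by omega) (by omega) (by omega) e; omega
  have a3 : h (i - 1) ≠ h (j + 1) := fun e => by
    have := B.inj _ _ (by omega) (by omega) (by omega) (by omega) e; omega
  have a4 : h' (i - 1) ≠ h' (j + 1) := fun e => by
    have := B'.inj _ _ (by omega) (by omega) (by omega) (by omega) e; omega
  have a5 : h i ≠ h (i - 1) := fun e => by
    have := B.inj _ _ (by omega) (by omega) (by omega) (by omega) e; omega
  have a6 : h' i ≠ h' (i - 1) := fun e => by
    have := B'.inj _ _ (by omega) (by omega) (by omega) (by omega) e; omega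
  have a7 : h j ≠ h (j + 1) := fun e => by
    have := B.inj _ _ (by omega) (by omega) (by omega) (by omega) e; omega
  have a8 : h' j ≠ h' (j + 1) := fun e => by
    have := B'.inj _ _ (by omega) (by omega) (by omega) (by omega) e; omega
  rcases B.left hp with H1 | H1 <;> rcases B'.left hp with H1' | H1' <;>
    rcases B.right hq with H2 | H2 <;> rcases B'.right hq with H2' | H2' <;>
    · have b1 := H1 i le_rfl hij.le
      have b2 := H1 j hij.le le_rfl
      have b3 := H1' i le_rfl hij.le
      have b4 := H1' j hij.le le_rfl
      have b5 := H2 i le_rfl hij.le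
      have b6 := H2 j hij.le le_rfl
      have b7 := H2' i le_rfl hij.le
      have b8 := H2' j hij.le le_rfl
      clear H1 H1' H2 H2'
      omega

theorem typA (B : Blk h i j p q) (hik : i < k) (hkj : k < j) (hp : p = i - 1)
    (hpar : (i - 1 - k) % 2 = 0) :
    ((∀ x y, i ≤ x → x ≤ k → k < y → y ≤ j → h x < h y) → h i < h k) ∧
      ((∀ x y, i ≤ x → x ≤ k → k < y → y ≤ j → h y < h x) → h k < h i) := by
  have hq := B.hq
  have n1 := B.nc (i - 1) k (by omega) (by omega) (by omega) (by omega) (by omega) hpar
  unfold btw at n1
  rw [sub_add_cancel] at n1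
  have a1 : h i ≠ h k := fun e => by
    have := B.inj _ _ (by omega) (by omega) (by omega) (by omega) e; omega
  constructor
  · intro H
    have c1 := H i (k + 1) (by omega) (by omega) (by omega) (by omega)
    have c2 := H k (k + 1) (by omega) (by omega) (by omega) (by omega)
    rcases B.left hp with H1 | H1 <;>
      · have b1 := H1 i (by omega) (by omega)
        have b2 := H1 k (by omega) (by omega)
        have b3 := H1 (k + 1) (by omega) (by omega)
        clear H H1
        omega
  · intro H
    have c1 := H i (k + 1) (by omega) (by omega) (by omega) (by omega)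
    have c2 := H k (k + 1) (by omega) (by omega) (by omega) (by omega)
    rcases B.left hp with H1 | H1 <;>
      · have b1 := H1 i (by omega) (by omega)
        have b2 := H1 k (by omega) (by omega)
        have b3 := H1 (k + 1) (by omega) (by omega)
        clear H H1
        omega

theorem typB (B : Blk h i j p q) (hik : i ≤ k) (hkj : k + 1 < j) (hq : q = j)
    (hpar : (j - k) % 2 = 0) :
    ((∀ x y, i ≤ x → x ≤ k → k < y → y ≤ j → h x < h y) → h (k + 1) < h j) ∧
      ((∀ x y, i ≤ x → x ≤ k → k < y → y ≤ j → h y < h x) → h j < h (k + 1)) := by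
  have hp := B.hp
  have n1 := B.nc j k (by omega) (by omega) (by omega) (by omega) (by omega) hpar
  unfold btw at n1
  have a1 : h (k + 1) ≠ h j := fun e => by
    have := B.inj _ _ (by omega) (by omega) (by omega) (by omega) e; omega
  constructor
  · intro H
    have c1 := H k (k + 1) (by omega) (by omega) (by omega) (by omega)
    have c2 := H k j (by omega) (by omega) (by omega) (by omega)
    rcases B.right hq with H1 | H1 <;>
      · have b1 := H1 k (by omega) (by omega)
        have b2 := H1 (k + 1) (by omega) (by omega)
        have b3 := H1 j (by omega) (by omega)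
        clear H H1
        omega
  · intro H
    have c1 := H k (k + 1) (by omega) (by omega) (by omega) (by omega)
    have c2 := H k j (by omega) (by omega) (by omega) (by omega)
    rcases B.right hq with H1 | H1 <;>
      · have b1 := H1 k (by omega) (by omega)
        have b2 := H1 (k + 1) (by omega) (by omega)
        have b3 := H1 j (by omega) (by omega)
        clear H H1
        omega

end Pool.Agent.Lib.MP_868dd5_lc
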