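import Pool.Agent.Lib.MP_868dd5_lc.Algo
import Pool.Agent.Lib.MP_868dd5_lc.Defs

/-!
# The specification, and the optimality of the dynamic program
-/

namespace Pool.Agent.Lib.MP_868dd5_lc

open Finset

/-- The direction of the arc `a`. -/
def upS (s : List Bool) (a : ℕ) : Bool := (s.getD a false == (a % 2 == 1))

/-- The solution found by the dynamic program. -/
def solve (s : List Bool) : List ℕ :=
  match better (get (tab s.length (upS s) (s.length + 1)) s.length 0).1
    (get (tab s.length (upS s) (s.length + 1)) s.length 0).2 with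
  | some x => x.2
  | none => []

theorem upS_spec (s : List Bool) {a : ℕ} (ha : a < s.length) : upS s a = true ↔
    (s[a]? = some false ∧ a % 2 = 0) ∨ (s[a]? = some true ∧ a % 2 = 1) := by
  unfold upS
  rw [List.getD_eq_getElem?_getD, List.getElem?_eq_getElem ha]
  rcases Nat.mod_two_eq_zero_or_one a with h | h <;> cases s[a] <;> simp [h]

theorem idxOf_inj {n : ℕ} {L : List ℕ} (hp : L.Perm (List.range (n + 1))) {x y : ℕ} (hx : x ≤ n)
    (h : L.idxOf x = L.idxOf y) : x = y := by
  have h1 : x ∈ L := hp.mem_iff.2 (List.mem_range.2 (by omega))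
  exact (List.idxOf_inj h1).1 h

theorem creaseWidth_eq {n : ℕ} {L : List ℕ} (hp : L.Perm (List.range (n + 1))) {i : ℕ}
    (h1 : 1 ≤ i) (hi' : i ≤ n) : creaseWidth n L i = wid L (i - 1) := by
  have hn : L.Nodup := hp.nodup_iff.2 List.nodup_range
  have hl : L.length = n + 1 := by rw [hp.length_eq, List.length_range]
  have hmem : ∀ x, x ∈ L ↔ x < n + 1 := fun x => by rw [hp.mem_iff, List.mem_range]
  have e : creaseWidth n L i = (Ioo (lo L i) (hi L i)).card := by
    unfold creaseWidth
    refine card_nbij' (fun z => L.idxOf z) (fun k => L.getD k 0) ?_ ?_ ?_ ?_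
    · intro z hz
      simp only [coe_filter, mem_range, Set.mem_ofPred_eq, coe_Ioo, Set.mem_Ioo] at *
      exact hz.2
    · intro k hk
      simp only [coe_filter, mem_range, Set.mem_ofPred_eq, coe_Ioo, Set.mem_Ioo] at *
      have hk' : k < L.length := by
        have a1 : L.idxOf (i - 1) < L.length :=
          List.idxOf_lt_length_of_mem ((hmem _).2 (by omega))
        have a2 : L.idxOf i < L.length :=
          List.idxOf_lt_length_of_mem ((hmem _).2 (by omega))
        have := hk.2
        unfold hi at this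
        omega
      have hg : L.getD k 0 = L[k] := List.getD_eq_getElem _ _ hk'
      rw [hg, List.Nodup.idxOf_getElem hn k hk']
      exact ⟨(hmem _).1 (List.getElem_mem hk'), hk⟩
    · intro z hz
      simp only [coe_filter, mem_range, Set.mem_ofPred_eq] at hz
      have h2 : L.idxOf z < L.length := List.idxOf_lt_length_of_mem ((hmem _).2 hz.1)
      simp only
      rw [List.getD_eq_getElem _ _ h2, List.getElem_idxOf]
    · intro k hk
      simp only [coe_Ioo, Set.mem_Ioo] at hk
      have hk' : k < L.length := by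
        have a1 : L.idxOf (i - 1) < L.length :=
          List.idxOf_lt_length_of_mem ((hmem _).2 (by omega))
        have a2 : L.idxOf i < L.length :=
          List.idxOf_lt_length_of_mem ((hmem _).2 (by omega))
        have := hk.2
        unfold hi at this
        omega
      simp only
      rw [List.getD_eq_getElem _ _ hk', List.Nodup.idxOf_getElem hn k hk']
  rw [e, Nat.card_Ioo]
  unfold lo hi wid pos
  rw [Nat.sub_add_cancel h1]
  omega

/-- The heights given by a list. -/
def hgt (L : List ℕ) (x : ℤ) : ℤ := (L.idxOf x.toNat : ℤ)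

theorem hgt_cast (L : List ℕ) (x : ℕ) : hgt L x = L.idxOf x := by
  unfold hgt; rw [Int.toNat_natCast]

theorem nc_of_folded {n : ℕ} {L : List ℕ} (F : FoldedState n L) {a c : ℕ} (ha : a < n)
    (hc : c < n) (hac : a ≠ c) (hpar : a % 2 = c % 2) : bt (pos L) a c ↔ bt (pos L) a (c + 1) := by
  have h := F.nested (a + 1) (c + 1) (by omega) (by omega) (by omega) (by omega) (by omega)
    (by omega)
  unfold lo hi at h
  simp only [Nat.add_sub_cancel] at h
  unfold bt pos
  omega

theorem st_of_folded {s : List Bool} {L : List ℕ} (F : FoldedState s.length L)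
    (C : Consistent s L) : St s.length (upS s) 0 s.length (hgt L) := by
  have e1 : pp 0 = 0 := by unfold pp; simp
  have e2 : qq s.length s.length = (s.length : ℤ) - 1 := by unfold qq; simp
  refine ⟨⟨?_, ?_, ?_, ?_, ?_, ?_⟩, ?_⟩
  · exact Or.inl (by rw [e1]; rfl)
  · exact Or.inl e2
  · intro x y h1 h2 h3 h4 h5
    rw [e1] at h1 h3
    rw [e2] at h2 h4
    obtain ⟨x, rfl⟩ := Int.eq_ofNat_of_zero_le h1
    obtain ⟨y, rfl⟩ := Int.eq_ofNat_of_zero_le h3
    rw [hgt_cast, hgt_cast] at h5
    have := idxOf_inj F.perm (x := x) (y := y) (by omega) (by exact_mod_cast h5)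
    omega
  · intro a c h1 h2 h3 h4 h5 h6
    rw [e1] at h1 h3
    rw [e2] at h2 h4
    obtain ⟨a, rfl⟩ := Int.eq_ofNat_of_zero_le h1
    obtain ⟨c, rfl⟩ := Int.eq_ofNat_of_zero_le h3
    have := nc_of_folded F (a := a) (c := c) (by omega) (by omega) (by omega) (by omega)
    unfold bt pos at this
    unfold btw
    rw [show (a : ℤ) + 1 = ((a + 1 : ℕ) : ℤ) by push_cast; ring,
      show (c : ℤ) + 1 = ((c + 1 : ℕ) : ℤ) by push_cast; ring, hgt_cast, hgt_cast, hgt_cast,
      hgt_cast]
    omega
  · intro h
    rw [e1] at h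
    simp at h
  · intro h
    rw [e2] at h
    omega
  · intro a h1 h2
    rw [e2] at h2
    have ha : a < s.length := by omega
    rw [show (a : ℤ) + 1 = ((a + 1 : ℕ) : ℤ) by push_cast; ring, hgt_cast, hgt_cast,
      upS_spec s ha, Nat.cast_lt]
    exact C (a + 1) (by omega) (by omega)

theorem cost_eq_totalWidth (n : ℕ) (L : List ℕ) :
    cost (hgt L) (0 : ℕ) n (pp 0) (qq n n) = totalWidth n L := by
  have e1 : pp 0 = 0 := by unfold pp; simp
  have e2 : qq n n = (n : ℤ) - 1 := by unfold qq; simp
  rw [e1, e2]
  unfold cost totalWidth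
  refine sum_nbij' (fun a => (a + 1).toNat) (fun i => (i : ℤ) - 1) ?_ ?_ ?_ ?_ ?_
  · intro a ha; rw [mem_Icc] at *; omega
  · intro a ha; rw [mem_Icc] at *; omega
  · intro a ha; rw [mem_Icc] at ha; omega
  · intro a ha; rw [mem_Icc] at ha; omega
  · intro a ha
    rw [mem_Icc] at ha
    obtain ⟨a, rfl⟩ := Int.eq_ofNat_of_zero_le ha.1
    unfold creaseWidth
    have key : ∀ z : ℕ, btw (hgt L) a z ↔ (lo L (a + 1) < L.idxOf z ∧ L.idxOf z < hi L (a + 1)) := by
      intro z
      unfold btw lo hi
      rw [show (a : ℤ) + 1 = ((a + 1 : ℕ) : ℤ) by push_cast; ring, hgt_cast, hgt_cast, hgt_cast,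
        Nat.add_sub_cancel]
      omega
    have ea : ((a : ℤ) + 1).toNat = a + 1 := by omega
    rw [ea]
    refine card_nbij' (fun z => z.toNat) (fun z => (z : ℤ)) ?_ ?_ ?_ ?_
    · intro z hz
      simp only [coe_filter, mem_Icc, mem_range, Set.mem_ofPred_eq] at *
      obtain ⟨z, rfl⟩ := Int.eq_ofNat_of_zero_le (show 0 ≤ z by simpa using hz.1.1)
      rw [Int.toNat_natCast]
      exact ⟨by omega, (key z).1 hz.2⟩
    · intro z hz
      simp only [coe_filter, mem_Icc, mem_range, Set.mem_ofPred_eq] at *
      exact ⟨by simp; omega, (key z).2 hz.2⟩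
    · intro z hz
      simp only [coe_filter, mem_Icc, mem_range, Set.mem_ofPred_eq] at *
      omega
    · intro z _; simp

theorem folded_of_vl {s : List Bool} {L : List ℕ}
    (V : VL s.length (upS s) 0 s.length L) : FoldedState s.length L ∧ Consistent s L ∧
      cst s.length (upS s) 0 s.length L = totalWidth s.length L := by
  have hp : L.Perm (List.range (s.length + 1)) := by
    refine (List.perm_ext_iff_of_nodup V.nodup List.nodup_range).2 fun x => ?_
    rw [V.mem, List.mem_range]; omega
  refine ⟨⟨hp, ?_⟩, ?_, ?_⟩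
  · intro i j h1 h2 h3 h4 h5 h6
    obtain ⟨a, rfl⟩ : ∃ a, i = a + 1 := ⟨i - 1, by omega⟩
    obtain ⟨c, rfl⟩ : ∃ c, j = c + 1 := ⟨j - 1, by omega⟩
    have n1 := V.vh.nc a c (by omega) (by omega) (by omega) (by omega) (by omega) (by omega)
    have n2 := V.vh.nc c a (by omega) (by omega) (by omega) (by omega) (by omega) (by omega)
    have d1 : L.idxOf a ≠ L.idxOf c := fun e => by
      have := idxOf_inj hp (by omega) e; omega
    have d2 : L.idxOf a ≠ L.idxOf (c + 1) := fun e => by
      have := idxOf_inj hp (by omega) e; omega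
    have d3 : L.idxOf (a + 1) ≠ L.idxOf c := fun e => by
      have := idxOf_inj hp (by omega) e; omega
    have d4 : L.idxOf (a + 1) ≠ L.idxOf (c + 1) := fun e => by
      have := idxOf_inj hp (by omega) e; omega
    have d5 : L.idxOf (a + 1) ≠ L.idxOf a := fun e => by
      have := idxOf_inj hp (by omega) e; omega
    have d6 : L.idxOf (c + 1) ≠ L.idxOf c := fun e => by
      have := idxOf_inj hp (by omega) e; omega
    unfold bt pos at n1 n2
    unfold lo hi
    simp only [Nat.add_sub_cancel]
    omega
  · intro i h1 h2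
    have := V.vh.sgn (i - 1) (by omega) (by omega)
    rw [Nat.sub_add_cancel h1, upS_spec s (by omega)] at this
    exact this
  · unfold cst lray rray totalWidth
    rw [if_neg (lt_irrefl _), if_neg (lt_irrefl _)]
    simp only [Nat.add_zero]
    refine sum_nbij' (fun a => a + 1) (fun i => i - 1) ?_ ?_ ?_ ?_ ?_
    · intro a ha; rw [mem_Ico] at ha; rw [mem_Icc]; omega
    · intro a ha; rw [mem_Icc] at ha; rw [mem_Ico]; omega
    · intro a ha; rw [Nat.add_sub_cancel]
    · intro a ha; rw [mem_Icc] at ha; omega
    · intro a ha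
      rw [mem_Ico] at ha
      rw [creaseWidth_eq hp (by omega) (by omega), Nat.add_sub_cancel]

/-- The folded state obtained by rolling up the strip. -/
def roll (up : ℕ → Bool) : ℕ → List ℕ
  | 0 => [0]
  | m + 1 => joinL (up m) (roll up m) [m + 1]

theorem vl_single (n : ℕ) (up : ℕ → Bool) (i : ℕ) : VL n up i i [i] :=
  ⟨by simp, fun x => by rw [List.mem_singleton]; omega, vh_single _ _ _ _⟩

theorem vl_roll {n : ℕ} (up : ℕ → Bool) {m : ℕ} (hm : m ≤ n) : VL n up 0 m (roll up m) := by
  induction m with
  | zero => exact vl_single n up 0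
  | succ m ih =>
    exact VL.join (by omega) (by omega) hm (ih (by omega)) (vl_single n up (m + 1)) rfl
      (by omega) (by omega)

/-- The dynamic program finds a consistent folded state of least total crease width. -/
theorem solve_spec (s : List Bool) : FoldedState s.length (solve s) ∧ Consistent s (solve s) ∧
    ∀ L, FoldedState s.length L → Consistent s L →
      totalWidth s.length (solve s) ≤ totalWidth s.length L := by
  have O := optP_sol s.length (upS s) s.length 0 (by omega)
  rw [Nat.zero_add] at O
  have hg : get (tab s.length (upS s) (s.length + 1)) s.length 0 =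
      sol s.length (upS s) s.length 0 := get_tab (by omega) (by omega)
  have hpick : ∀ τ, pick s.length 0 s.length τ (sol s.length (upS s) s.length 0) =
      better (sol s.length (upS s) s.length 0).1 (sol s.length (upS s) s.length 0).2 := by
    intro τ
    unfold pick
    rw [if_neg (by omega)]
  have hlb : ∀ L, FoldedState s.length L → Consistent s L → ∃ c L',
      better (sol s.length (upS s) s.length 0).1 (sol s.length (upS s) s.length 0).2 =
        some (c, L') ∧ c ≤ totalWidth s.length L := by
    intro L F C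
    obtain ⟨c, L', h1, h2⟩ := O.opt _ (st_of_folded F C)
    rw [hpick] at h1
    rw [cost_eq_totalWidth] at h2
    exact ⟨c, L', h1, h2⟩
  obtain ⟨F₀, C₀, -⟩ := folded_of_vl (vl_roll (upS s) le_rfl)
  obtain ⟨c, L, hL, -⟩ := hlb _ F₀ C₀
  have hsolve : solve s = L := by
    unfold solve
    rw [hg, hL]
  have hV : VL s.length (upS s) 0 s.length L ∧ cst s.length (upS s) 0 s.length L = c := by
    rcases better_mem hL with h | h
    · have := O.valid true c L h
      exact ⟨this.1, this.2.1⟩
    · have := O.valid false c L h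
      exact ⟨this.1, this.2.1⟩
  obtain ⟨F, C, e⟩ := folded_of_vl hV.1
  rw [hsolve]
  refine ⟨F, C, fun L' F' C' => ?_⟩
  obtain ⟨c', L'', h1, h2⟩ := hlb L' F' C'
  rw [hL, Option.some.injEq, Prod.mk.injEq] at h1
  rw [← e, hV.2, h1.1]
  exact h2

end Pool.Agent.Lib.MP_868dd5_lc
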