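import Pool.Agent.Lib.MP_868dd5_lc.MoveZ

/-!
# One step of the rearrangement
-/

namespace Pool.Agent.Lib.MP_868dd5_lc

open Finset

variable {h : ℤ → ℤ} {i j p q : ℤ}

section Z

variable (B : Blk h i j p q) {t b K : ℤ} (hit : i < t) (htb : t < b) (hbj : b < j)
    (hb : ∀ z, i ≤ z → z ≤ j → h b ≤ h z) (ht : ∀ z, i ≤ z → z ≤ j → h z ≤ h t)
    (hp : p = i - 1) (hq : q = j) (hl : ∀ z, i ≤ z → z ≤ j → h (i - 1) < h z)
    (hr : ∀ z, i ≤ z → z ≤ j → h z < h (j + 1))
    (hK : ∀ x, p ≤ x → x ≤ q + 1 → -K < h x ∧ h x < K)
include B hit htb hbj hb ht hp hq hl hr hK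

theorem blkZ : Blk (hZ h i j t b K) i j p q where
  hp := B.hp
  hq := B.hq
  inj x y h1 h2 h3 h4 h5 := by
    by_contra hxy
    have hne := B.ne h1 h2 h3 h4 hxy
    have r1 := regZ (h := h) (K := K) hit htb hbj x
    have r2 := regZ (h := h) (K := K) hit htb hbj y
    have k1 := hK x h1 h2
    have k2 := hK y h3 h4
    omega
  nc a c h1 h2 h3 h4 h5 h6 := ncZ B hit htb hbj hb ht hp hq hl hr hK a c h1 h2 h3 h4 h5 h6
  left _ := by
    left
    intro z hz hz'
    have r1 := regZ (h := h) (K := K) hit htb hbj (i - 1)
    have r2 := regZ (h := h) (K := K) hit htb hbj z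
    have k1 := hK (i - 1) (by omega) (by omega)
    have k2 := hK z (by omega) (by omega)
    have := hl z hz hz'
    omega
  right _ := by
    right
    intro z hz hz'
    have r1 := regZ (h := h) (K := K) hit htb hbj (j + 1)
    have r2 := regZ (h := h) (K := K) hit htb hbj z
    have k1 := hK (j + 1) (by omega) (by omega)
    have k2 := hK z (by omega) (by omega)
    have := hr z hz hz'
    omega

theorem cost_Z : cost (hZ h i j t b K) i j p q ≤ cost h i j p q := by
  rw [cost_eq, cost_eq]
  refine sum_le_sum fun z hz => ?_
  rw [mem_Icc] at hz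
  have kz := hK z (by omega) (by omega)
  have rz := regZ (h := h) (K := K) hit htb hbj z
  have hbz := hb z hz.1 hz.2
  have htz := ht z hz.1 hz.2
  have hbz' : z ≠ b → h b < h z := fun e => by
    have := B.ne (x := b) (y := z) (by omega) (by omega) (by omega) (by omega) (Ne.symm e)
    omega
  have htz' : z ≠ t → h z < h t := fun e => by
    have := B.ne (x := t) (y := z) (by omega) (by omega) (by omega) (by omega) (Ne.symm e)
    omega
  by_cases hM : t ≤ z ∧ z ≤ b
  · -- a layer of the middle part
    rw [card_split (b := t), card_split (b := t) (Z := fun a => btw h a z)]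
    refine add_le_add ?_ ?_
    · by_cases hzt : z = t
      · refine le_trans (le_of_eq ?_) (Nat.zero_le _)
        rw [card_eq_zero, filter_eq_empty_iff]
        intro a ha h1
        rw [mem_Icc] at ha
        have ta := typeZ B (K := K) hit htb hbj hb ht hp hq hl hr a ha.1 ha.2
        have ka := hK a ha.1 (by omega)
        have ka' := hK (a + 1) (by omega) (by omega)
        subst hzt
        unfold btw at h1
        rcases ta with ta | ta | ta | ta | ta | ta | ta <;> omega
      · obtain ⟨a₁, h1, h2, h3⟩ := exists_btw (h := h) (z := z) (u := i - 1) (v := t) (by omega)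
          (Or.inl ⟨hl z hz.1 hz.2, htz' hzt⟩)
          (fun x hx hx' => B.ne (by omega) (by omega) (by omega) (by omega) (by omega))
        calc _ ≤ ({t - 1} : Finset ℤ).card := by
              refine card_le_card fun a ha => ?_
              rw [mem_filter, mem_Icc] at ha
              obtain ⟨⟨ha, ha'⟩, h7, h8⟩ := ha
              have ta := typeZ B (K := K) hit htb hbj hb ht hp hq hl hr a ha ha'
              have ka := hK a ha (by omega)
              have ka' := hK (a + 1) (by omega) (by omega)
              rw [mem_singleton]
              unfold btw at h7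
              rcases ta with ta | ta | ta | ta | ta | ta | ta <;> omega
          _ = 1 := card_singleton _
          _ = ({a₁} : Finset ℤ).card := (card_singleton _).symm
          _ ≤ _ := by
              refine card_le_card fun a ha => ?_
              rw [mem_singleton] at ha
              rw [mem_filter, mem_Icc]
              subst ha
              exact ⟨by omega, h3, by omega⟩
    · rw [card_split (b := b), card_split (b := b) (Z := fun a => btw h a z ∧ t ≤ a)]
      refine add_le_add ?_ ?_
      · refine card_le_card fun a ha => ?_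
        rw [mem_filter, mem_Icc] at *
        obtain ⟨⟨ha, ha'⟩, ⟨h7, h8⟩, h9⟩ := ha
        refine ⟨⟨ha, ha'⟩, ⟨?_, h8⟩, h9⟩
        have ta := typeZ B (K := K) hit htb hbj hb ht hp hq hl hr a ha ha'
        have ka := hK a ha (by omega)
        have ka' := hK (a + 1) (by omega) (by omega)
        unfold btw at h7 ⊢
        rcases ta with ta | ta | ta | ta | ta | ta | ta <;> omega
      · by_cases hzb : z = b
        · refine le_trans (le_of_eq ?_) (Nat.zero_le _)
          rw [card_eq_zero, filter_eq_empty_iff]
          intro a ha h1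
          rw [mem_Icc] at ha
          have ta := typeZ B (K := K) hit htb hbj hb ht hp hq hl hr a ha.1 ha.2
          have ka := hK a ha.1 (by omega)
          have ka' := hK (a + 1) (by omega) (by omega)
          subst hzb
          unfold btw at h1
          rcases ta with ta | ta | ta | ta | ta | ta | ta <;> omega
        · obtain ⟨a₁, h1, h2, h3⟩ := exists_btw (h := h) (z := z) (u := b) (v := j + 1) (by omega)
            (Or.inl ⟨hbz' hzb, hr z hz.1 hz.2⟩)
            (fun x hx hx' => B.ne (by omega) (by omega) (by omega) (by omega) (by omega))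
          calc _ ≤ ({b} : Finset ℤ).card := by
                refine card_le_card fun a ha => ?_
                rw [mem_filter, mem_Icc] at ha
                obtain ⟨⟨ha, ha'⟩, ⟨h7, h8⟩, h9⟩ := ha
                have ta := typeZ B (K := K) hit htb hbj hb ht hp hq hl hr a ha ha'
                have ka := hK a ha (by omega)
                have ka' := hK (a + 1) (by omega) (by omega)
                rw [mem_singleton]
                unfold btw at h7
                rcases ta with ta | ta | ta | ta | ta | ta | ta <;> omega
            _ = 1 := card_singleton _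
            _ = ({a₁} : Finset ℤ).card := (card_singleton _).symm
            _ ≤ _ := by
                refine card_le_card fun a ha => ?_
                rw [mem_singleton] at ha
                rw [mem_filter, mem_Icc]
                subst ha
                exact ⟨by omega, ⟨h3, by omega⟩, by omega⟩
  · refine card_le_card fun a ha => ?_
    rw [mem_filter, mem_Icc] at *
    obtain ⟨⟨ha, ha'⟩, h7⟩ := ha
    refine ⟨⟨ha, ha'⟩, ?_⟩
    have ta := typeZ B (K := K) hit htb hbj hb ht hp hq hl hr a ha ha'
    have ka := hK a ha (by omega)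
    have ka' := hK (a + 1) (by omega) (by omega)
    have e1 := hl z hz.1 hz.2
    have e2 := hr z hz.1 hz.2
    have e3 : a = i - 1 → h a = h (i - 1) := fun e => by rw [e]
    have e4 : a = j → h (a + 1) = h (j + 1) := fun e => by rw [e]
    unfold btw at h7 ⊢
    rcases ta with ta | ta | ta | ta | ta | ta | ta <;> omega

end Z

/-- **The second rearrangement.** -/
theorem goodZ (B : Blk h i j p q) {t b : ℤ} (hit : i ≤ t) (htb : t < b) (hbj : b ≤ j)
    (hb : ∀ z, i ≤ z → z ≤ j → h b ≤ h z) (ht : ∀ z, i ≤ z → z ≤ j → h z ≤ h t)
    (hp : p = i - 1) (hq : q = j) (hl : ∀ z, i ≤ z → z ≤ j → h (i - 1) < h z)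
    (hr : ∀ z, i ≤ z → z ≤ j → h z < h (j + 1)) : Good h i j p q := by
  rcases eq_or_lt_of_le hit with h1 | h1
  · subst h1
    refine ⟨h, B, fun _ _ _ => Iff.rfl, fun _ _ => Iff.rfl, le_rfl, i, le_rfl, by omega,
      Or.inr ?_⟩
    intro x y hx hx' hy hy'
    have := ht y (by omega) hy'
    have := B.ne (x := i) (y := y) (by omega) (by omega) (by omega) (by omega) (by omega)
    obtain rfl : x = i := by omega
    omega
  rcases eq_or_lt_of_le hbj with h2 | h2
  · subst h2
    refine ⟨h, B, fun _ _ _ => Iff.rfl, fun _ _ => Iff.rfl, le_rfl, b - 1, by omega, by omega,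
      Or.inr ?_⟩
    intro x y hx hx' hy hy'
    have := hb x hx (by omega)
    have := B.ne (x := b) (y := x) (by omega) (by omega) (by omega) (by omega) (by omega)
    obtain rfl : y = b := by omega
    omega
  obtain ⟨K, hK0, hK⟩ := exists_bound h p (q + 1)
  refine ⟨hZ h i j t b K, blkZ B h1 htb h2 hb ht hp hq hl hr hK, ?_, ?_,
    cost_Z B h1 htb h2 hb ht hp hq hl hr hK, b, by omega, by omega, Or.inl ?_⟩
  · intro a ha ha'
    have ta := typeZ B (K := K) h1 htb h2 hb ht hp hq hl hr a ha ha'
    have ka := hK a ha (by omega)
    have ka' := hK (a + 1) (by omega) (by omega)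
    rcases ta with ta | ta | ta | ta | ta | ta | ta <;> omega
  · intro e1 e2
    have r1 := regZ (h := h) (K := K) h1 htb h2 (j + 1)
    have r2 := regZ (h := h) (K := K) h1 htb h2 (i - 1)
    have k1 := hK (j + 1) (by omega) (by omega)
    have k2 := hK (i - 1) (by omega) (by omega)
    have := hl b (by omega) (by omega)
    have := hr b (by omega) (by omega)
    omega
  · intro x y hx hx' hy hy'
    have r1 := regZ (h := h) (K := K) h1 htb h2 x
    have r2 := regZ (h := h) (K := K) h1 htb h2 y
    have k1 := hK x (by omega) (by omega)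
    have k2 := hK y (by omega) (by omega)
    omega

/-- **One step of the rearrangement**: every block with at least two segments can be rearranged,
without increasing the cost, so that an initial part is entirely below or above the rest. -/
theorem good (B : Blk h i j p q) (hij : i < j) : Good h i j p q := by
  obtain ⟨b, hb0, hb⟩ := exists_min_image (Icc i j) h ⟨i, by rw [mem_Icc]; omega⟩
  obtain ⟨t, ht0, ht⟩ := exists_max_image (Icc i j) h ⟨i, by rw [mem_Icc]; omega⟩
  rw [mem_Icc] at hb0 ht0
  replace hb : ∀ z, i ≤ z → z ≤ j → h b ≤ h z := fun z h1 h2 => hb z (mem_Icc.2 ⟨h1, h2⟩)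
  replace ht : ∀ z, i ≤ z → z ≤ j → h z ≤ h t := fun z h1 h2 => ht z (mem_Icc.2 ⟨h1, h2⟩)
  have hp := B.hp
  have hq := B.hq
  have hbt : b ≠ t := by
    rintro rfl
    have h1 := hb i le_rfl hij.le
    have h2 := ht i le_rfl hij.le
    have h3 := hb j hij.le le_rfl
    have h4 := ht j hij.le le_rfl
    exact B.ne (x := i) (y := j) (by omega) (by omega) (by omega) (by omega) (by omega) (by omega)
  -- the directions of the rays
  by_cases hL : p = i - 1 → ∀ z, i ≤ z → z ≤ j → h (i - 1) < h z
  · by_cases hR : q = j → ∀ z, i ≤ z → z ≤ j → h (j + 1) < h z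
    · rcases lt_or_gt_of_ne hbt with h1 | h1
      · exact goodA B hb0.1 h1 ht0.2 hb ht hL
      · refine Good.of_rev B hij.le (goodA B.rev (b := -b) (t := -t) (by omega) (by omega)
          (by omega) ?_ ?_ ?_)
        · intro z hz hz'; beta_reduce; rw [neg_neg]; exact hb _ (by omega) (by omega)
        · intro z hz hz'; beta_reduce; rw [neg_neg]; exact ht _ (by omega) (by omega)
        · intro e z hz hz'; beta_reduce; rw [show -(-j - 1) = j + 1 by ring]
          exact hR (by omega) _ (by omega) (by omega)
    · push Not at hR
      obtain ⟨hq', z₀, hz1, hz2, hz3⟩ := hR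
      have hR' : ∀ z, i ≤ z → z ≤ j → h z < h (j + 1) := by
        rcases B.right hq' with H | H
        · have := H z₀ hz1 hz2; omega
        · exact H
      rcases lt_or_gt_of_ne hbt with h1 | h1
      · exact goodA B hb0.1 h1 ht0.2 hb ht hL
      · by_cases hp' : p = i - 1
        · exact goodZ B ht0.1 h1 hb0.2 hb ht hp' hq' (hL hp') hR'
        · refine Good.of_neg B hij.le (goodA B.neg (b := t) (t := b) ht0.1 h1 hb0.2 ?_ ?_ ?_)
          · intro z hz hz'; have := ht z hz hz'; beta_reduce; omega
          · intro z hz hz'; have := hb z hz hz'; beta_reduce; omega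
          · intro e; exact absurd e hp'
  · push Not at hL
    obtain ⟨hp', z₀, hz1, hz2, hz3⟩ := hL
    have hL' : ∀ z, i ≤ z → z ≤ j → h z < h (i - 1) := by
      rcases B.left hp' with H | H
      · have := H z₀ hz1 hz2; omega
      · exact H
    rcases lt_or_gt_of_ne hbt with h1 | h1
    · by_cases hR : q = j → ∀ z, i ≤ z → z ≤ j → h z < h (j + 1)
      · refine Good.of_rev B hij.le (Good.of_neg B.rev (by omega)
          (goodA B.rev.neg (b := -t) (t := -b) (by omega) (by omega) (by omega) ?_ ?_ ?_))
        · intro z hz hz'; have := ht (-z) (by omega) (by omega); beta_reduce; rw [neg_neg]; omega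
        · intro z hz hz'; have := hb (-z) (by omega) (by omega); beta_reduce; rw [neg_neg]; omega
        · intro e z hz hz'
          have := hR (by omega) (-z) (by omega) (by omega)
          beta_reduce
          rw [show -(-j - 1) = j + 1 by ring]; omega
      · push Not at hR
        obtain ⟨hq', z₁, hz4, hz5, hz6⟩ := hR
        have hR' : ∀ z, i ≤ z → z ≤ j → h (j + 1) < h z := by
          rcases B.right hq' with H | H
          · exact H
          · have := H z₁ hz4 hz5; omega
        refine Good.of_neg B hij.le (goodZ B.neg (t := b) (b := t) hb0.1 h1 ht0.2 ?_ ?_ hp' hq'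
          ?_ ?_)
        · intro z hz hz'; have := ht z hz hz'; beta_reduce; omega
        · intro z hz hz'; have := hb z hz hz'; beta_reduce; omega
        · intro z hz hz'; have := hL' z hz hz'; beta_reduce; omega
        · intro z hz hz'; have := hR' z hz hz'; beta_reduce; omega
    · refine Good.of_neg B hij.le (goodA B.neg (b := t) (t := b) ht0.1 h1 hb0.2 ?_ ?_ ?_)
      · intro z hz hz'; have := ht z hz hz'; beta_reduce; omega
      · intro z hz hz'; have := hb z hz hz'; beta_reduce; omega
      · intro e z hz hz'; have := hL' z hz hz'; beta_reduce; omega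

end Pool.Agent.Lib.MP_868dd5_lc
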